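import Mathlib
set_option autoImplicit false

/-!
The critical values of a polynomial in several variables over a field of characteristic zero: there
are only finitely many. For all small `η ≠ 0` the level set of `η` has no critical points.
-/

namespace Pool.Agent.Y797.GC

open Polynomial TensorProduct

section transc

theorem D_ne_zero (k L : Type*) [Field k] [CharZero k] [Field L] [Algebra k L]
    [Algebra.EssFiniteType k L] (t : L) (ht : Transcendental k t) :
    KaehlerDifferential.D k L t ≠ 0 := by
  let _ : Algebra (Polynomial k) L := (Polynomial.aeval t : Polynomial k →ₐ[k] L).toRingHom.toAlgebra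
  have hmap : ∀ q : Polynomial k, algebraMap (Polynomial k) L q = Polynomial.aeval t q :=
    fun _ => rfl
  have : IsScalarTower k (Polynomial k) L := IsScalarTower.of_algebraMap_eq fun x => by
    rw [hmap, Polynomial.algebraMap_eq, Polynomial.aeval_C]
  have hinj0 : Function.Injective (algebraMap (Polynomial k) L) :=
    transcendental_iff_injective.1 ht
  have : FaithfulSMul (Polynomial k) L := (faithfulSMul_iff_algebraMap_injective _ _).2 hinj0
  let _ : Algebra (FractionRing (Polynomial k)) L := FractionRing.liftAlgebra (Polynomial k) L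
  have : IsScalarTower (Polynomial k) (FractionRing (Polynomial k)) L :=
    FractionRing.isScalarTower_liftAlgebra (Polynomial k) L
  have : IsScalarTower k (FractionRing (Polynomial k)) L := by
    refine IsScalarTower.of_algebraMap_eq fun x => ?_
    rw [IsScalarTower.algebraMap_apply k (Polynomial k) L,
      IsScalarTower.algebraMap_apply k (Polynomial k) (FractionRing (Polynomial k)),
      ← IsScalarTower.algebraMap_apply (Polynomial k) (FractionRing (Polynomial k)) L]
  have : Algebra.EssFiniteType (FractionRing (Polynomial k)) L :=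
    Algebra.EssFiniteType.of_comp k _ _
  have : CharZero (FractionRing (Polynomial k)) := inferInstance
  have : Algebra.FormallySmooth (FractionRing (Polynomial k)) L := inferInstance
  have : Algebra.FormallySmooth (Polynomial k) (FractionRing (Polynomial k)) :=
    Algebra.FormallySmooth.of_isLocalization (nonZeroDivisors _)
  have : Algebra.FormallySmooth (Polynomial k) L :=
    Algebra.FormallySmooth.comp _ (FractionRing (Polynomial k)) _
  have hinj : Function.Injective (KaehlerDifferential.mapBaseChange k (Polynomial k) L) := by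
    rw [injective_iff_map_eq_zero]
    intro x hx
    obtain ⟨y, rfl⟩ := (Algebra.H1Cotangent.exact_δ_mapBaseChange k (Polynomial k) L x).1 hx
    have : Subsingleton (Algebra.H1Cotangent (Polynomial k) L) :=
      Algebra.FormallySmooth.subsingleton_h1Cotangent
    rw [Subsingleton.elim y 0, map_zero]
  intro h0
  have h1 : KaehlerDifferential.mapBaseChange k (Polynomial k) L
      (1 ⊗ₜ KaehlerDifferential.D k (Polynomial k) X) = 0 := by
    rw [KaehlerDifferential.mapBaseChange_tmul, one_smul, KaehlerDifferential.map_D, hmap,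
      Polynomial.aeval_X]
    exact h0
  have h2 := (injective_iff_map_eq_zero _).1 hinj _ h1
  have h3 := congrArg (LinearMap.lTensor L (KaehlerDifferential.polynomialEquiv k).toLinearMap) h2
  rw [map_zero, LinearMap.lTensor_tmul] at h3
  have h4 : (KaehlerDifferential.polynomialEquiv k) (KaehlerDifferential.D k (Polynomial k) X) =
      1 := by
    rw [KaehlerDifferential.polynomialEquiv_D, Polynomial.derivative_X]
  have h5 : (1 : L) ⊗ₜ[Polynomial k] (1 : Polynomial k) = 0 := by
    rw [← h4]
    exact h3
  have h6 := congrArg (TensorProduct.rid (Polynomial k) L) h5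
  rw [TensorProduct.rid_tmul, one_smul, map_zero] at h6
  exact one_ne_zero h6

end transc

section crit

theorem exists_field.{v} (k : Type*) (B : Type v) [Field k] [CommRing B] [Nontrivial B]
    [Algebra k B] [Algebra.EssFiniteType k B] :
    ∃ (L : Type v) (_ : Field L) (_ : Algebra k L), Algebra.EssFiniteType k L ∧
      Nonempty (B →ₐ[k] L) := by
  obtain ⟨m, hm⟩ := Ideal.exists_maximal B
  have h1 : Algebra.EssFiniteType k (B ⧸ m) := Algebra.EssFiniteType.comp k B (B ⧸ m)
  exact ⟨B ⧸ m, Ideal.Quotient.field m, Ideal.instAlgebraQuotient k m, h1,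
    ⟨Ideal.Quotient.mkₐ k m⟩⟩

variable {k : Type*} [Field k] {ι : Type*}

theorem sum_der [Fintype ι] {M : Type*} [AddCommGroup M] [Module k M]
    [Module (MvPolynomial ι k) M] [IsScalarTower k (MvPolynomial ι k) M]
    (E : ι → Derivation k (MvPolynomial ι k) M) (q : MvPolynomial ι k) :
    (∑ i, E i) q = ∑ i, E i q := by
  have h := map_sum (Derivation.coeFnAddMonoidHom (R := k) (A := MvPolynomial ι k) (M := M)) E
    Finset.univ
  have h2 := congrFun h q
  rw [Finset.sum_apply] at h2
  exact h2

theorem compDer_apply' {M : Type*} [AddCommGroup M] [Module k M]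
    [Module (MvPolynomial ι k) M] [IsScalarTower k (MvPolynomial ι k) M] (v : M) (i : ι)
    (q : MvPolynomial ι k) :
    ((LinearMap.toSpanSingleton (MvPolynomial ι k) M v).compDer (MvPolynomial.pderiv i)) q =
      MvPolynomial.pderiv i q • v := rfl

/-- the value of a derivation on a polynomial -/
theorem deriv_formula [Fintype ι] {M : Type*} [AddCommGroup M] [Module k M]
    [Module (MvPolynomial ι k) M] [IsScalarTower k (MvPolynomial ι k) M]
    (D : Derivation k (MvPolynomial ι k) M) (P : MvPolynomial ι k) :
    D P = ∑ i, MvPolynomial.pderiv i P • D (MvPolynomial.X i) := by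
  classical
  have h : D = ∑ i, (LinearMap.toSpanSingleton (MvPolynomial ι k) M
      (D (MvPolynomial.X i))).compDer (MvPolynomial.pderiv i) := by
    refine MvPolynomial.derivation_ext fun j => ?_
    rw [sum_der, Finset.sum_eq_single j]
    · rw [compDer_apply', MvPolynomial.pderiv_X_self, one_smul]
    · intro i _ hij
      rw [compDer_apply', MvPolynomial.pderiv_X_of_ne (Ne.symm hij), zero_smul]
    · intro h
      exact absurd (Finset.mem_univ j) h
  conv_lhs => rw [h]
  rw [sum_der]
  rfl

theorem D_map [Fintype ι] {B : Type*} [CommRing B] [Algebra k B] (ψ : MvPolynomial ι k →ₐ[k] B)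
    (P : MvPolynomial ι k) : KaehlerDifferential.D k B (ψ P) =
      ∑ i, ψ (MvPolynomial.pderiv i P) • KaehlerDifferential.D k B (ψ (MvPolynomial.X i)) := by
  let _ : Algebra (MvPolynomial ι k) B := ψ.toRingHom.toAlgebra
  have hmap : ∀ q, algebraMap (MvPolynomial ι k) B q = ψ q := fun _ => rfl
  have : IsScalarTower k (MvPolynomial ι k) B := IsScalarTower.of_algebraMap_eq fun x => by
    rw [hmap, MvPolynomial.algebraMap_eq]
    exact (ψ.commutes x).symm
  have h := deriv_formula ((KaehlerDifferential.D k B).compAlgebraMap (MvPolynomial ι k)) P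
  refine h.trans (Finset.sum_congr rfl fun i _ => ?_)
  rw [← algebraMap_smul B (MvPolynomial.pderiv i P)]
  rfl

/-- Some nonzero polynomial in `P` lies in the ideal generated by the partial derivatives of `P`. -/
theorem exists_crit [CharZero k] [Finite ι] (P : MvPolynomial ι k) : ∃ D : Polynomial k, D ≠ 0 ∧
    Polynomial.aeval P D ∈ Ideal.span (Set.range fun i => MvPolynomial.pderiv i P) := by
  classical
  have := Fintype.ofFinite ι
  by_contra hcon
  push Not at hcon
  set J : Ideal (MvPolynomial ι k) := Ideal.span (Set.range fun i => MvPolynomial.pderiv i P)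
    with hJ
  -- the multiplicative subset of the polynomials in `P`
  set M : Submonoid (MvPolynomial ι k ⧸ J) :=
    (nonZeroDivisors (Polynomial k)).map ((Ideal.Quotient.mk J).comp
      (Polynomial.aeval P : Polynomial k →ₐ[k] MvPolynomial ι k).toRingHom) with hM
  have h0M : (0 : MvPolynomial ι k ⧸ J) ∉ M := by
    rintro ⟨D, hD, h0⟩
    have hD0 : D ≠ 0 := nonZeroDivisors.ne_zero hD
    exact hcon D hD0 (Ideal.Quotient.eq_zero_iff_mem.1 h0)
  have hnt : Nontrivial (Localization M) := by
    rw [← not_subsingleton_iff_nontrivial]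
    intro hs
    exact h0M ((IsLocalization.subsingleton_iff (S := Localization M) (M := M)).1 hs)
  have : Algebra.EssFiniteType (MvPolynomial ι k ⧸ J) (Localization M) :=
    Algebra.EssFiniteType.of_isLocalization _ M
  have : Algebra.EssFiniteType k (Localization M) :=
    Algebra.EssFiniteType.comp k (MvPolynomial ι k ⧸ J) (Localization M)
  obtain ⟨L, hL1, hL2, hL3, ⟨χ⟩⟩ := exists_field k (Localization M)
  set ψ : MvPolynomial ι k →ₐ[k] L := χ.comp
    ((IsScalarTower.toAlgHom k (MvPolynomial ι k ⧸ J) (Localization M)).comp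
      (Ideal.Quotient.mkₐ k J)) with hψ
  have hψ1 : ∀ p, ψ p = χ (algebraMap (MvPolynomial ι k ⧸ J) (Localization M)
      (Ideal.Quotient.mk J p)) := fun p => rfl
  have htr : Transcendental k (ψ P) := by
    rintro ⟨D, hD0, hD⟩
    rw [Polynomial.aeval_algHom_apply] at hD
    have h1 : Ideal.Quotient.mk J (Polynomial.aeval P D) ∈ M :=
      ⟨D, mem_nonZeroDivisors_of_ne_zero hD0, rfl⟩
    have h2 : IsUnit (algebraMap (MvPolynomial ι k ⧸ J) (Localization M)
        (Ideal.Quotient.mk J (Polynomial.aeval P D))) :=
      IsLocalization.map_units (Localization M) (⟨_, h1⟩ : M)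
    have h3 := h2.map χ
    rw [← hψ1, hD] at h3
    exact not_isUnit_zero h3
  refine D_ne_zero k L (ψ P) htr ?_
  -- the differential of `P` vanishes
  rw [D_map]
  refine Finset.sum_eq_zero fun i _ => ?_
  have h6 : MvPolynomial.pderiv i P ∈ J := Ideal.subset_span ⟨i, rfl⟩
  have h5 : ψ (MvPolynomial.pderiv i P) = 0 := by
    rw [hψ1, Ideal.Quotient.eq_zero_iff_mem.2 h6, map_zero, map_zero]
  rw [h5, zero_smul]

end crit

section level

theorem eval_aeval {ι : Type*} (P : MvPolynomial ι ℂ) (z : ι → ℂ) (D : Polynomial ℂ) :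
    MvPolynomial.eval z (Polynomial.aeval P D) = D.eval (MvPolynomial.eval z P) := by
  rw [Polynomial.aeval_def, Polynomial.hom_eval₂]
  have h : (MvPolynomial.eval z).comp (algebraMap ℂ (MvPolynomial ι ℂ)) = RingHom.id ℂ := by
    ext x
    simp
  rw [h]
  rfl

/-- For all small `η ≠ 0` there are no critical points on the level set of `η`. -/
theorem exists_level {ι : Type*} [Finite ι] (P : MvPolynomial ι ℂ) :
    ∃ ε : ℝ, 0 < ε ∧ ∀ η : ℂ, η ≠ 0 → ‖η‖ < ε → ∀ z : ι → ℂ, MvPolynomial.eval z P = η →
      ∃ i, MvPolynomial.eval z (MvPolynomial.pderiv i P) ≠ 0 := by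
  classical
  obtain ⟨D, hD0, hD⟩ := exists_crit P
  have hex : ∃ ε : ℝ, 0 < ε ∧ ∀ η : ℂ, η ≠ 0 → ‖η‖ < ε → D.eval η ≠ 0 := by
    by_cases hne : ((D.roots.toFinset.erase 0).image fun z => ‖z‖).Nonempty
    · refine ⟨((D.roots.toFinset.erase 0).image fun z => ‖z‖).min' hne, ?_,
        fun η hη hη2 h0 => ?_⟩
      · obtain ⟨z, hz, hz2⟩ := Finset.mem_image.1 (Finset.min'_mem _ hne)
        rw [← hz2]
        exact norm_pos_iff.2 (Finset.ne_of_mem_erase hz)
      · refine absurd (Finset.min'_le ((D.roots.toFinset.erase 0).image fun z => ‖z‖) ‖η‖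
          (Finset.mem_image_of_mem _ (Finset.mem_erase.2 ⟨hη, ?_⟩))) (not_le.2 hη2)
        rw [Multiset.mem_toFinset, Polynomial.mem_roots hD0]
        exact h0
    · refine ⟨1, one_pos, fun η hη _ h0 => hne ⟨‖η‖, Finset.mem_image_of_mem _
        (Finset.mem_erase.2 ⟨hη, ?_⟩)⟩⟩
      rw [Multiset.mem_toFinset, Polynomial.mem_roots hD0]
      exact h0
  obtain ⟨ε, hε, h⟩ := hex
  refine ⟨ε, hε, fun η hη hη2 z hz => ?_⟩
  by_contra hcon
  push Not at hcon
  have h1 : Ideal.span (Set.range fun i => MvPolynomial.pderiv i P) ≤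
      RingHom.ker (MvPolynomial.eval z) := by
    rw [Ideal.span_le]
    rintro _ ⟨i, rfl⟩
    exact hcon i
  have h2 : MvPolynomial.eval z (Polynomial.aeval P D) = 0 := h1 hD
  rw [eval_aeval, hz] at h2
  exact h η hη hη2 h2

end level

end Pool.Agent.Y797.GC
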