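import Pool.Agent.Y797.GC.Def
set_option autoImplicit false

/-!
The coordinate rings of the curves are domains.
-/

namespace Pool.Agent.Y797.GC

open Polynomial

section irr

variable {K : Type*} [Field K]

theorem irr (ρ : K) (F : Polynomial (Polynomial K)) (hdeg : 1 ≤ F.natDegree)
    (hev : F.map (Polynomial.evalRingHom ρ) = -1)
    (hlc : ¬ (X - C ρ) ^ 2 ∣ F.leadingCoeff)
    (hc : ∀ b : Polynomial K, C b ∣ F → b.eval ρ ≠ 0 → IsUnit b) : Irreducible F := by
  have key : ∀ P Q : Polynomial (Polynomial K), F = P * Q → Q.leadingCoeff.eval ρ ≠ 0 →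
      IsUnit Q := by
    intro P Q hF hQ
    have h1 : P.map (Polynomial.evalRingHom ρ) * Q.map (Polynomial.evalRingHom ρ) = -1 := by
      rw [← Polynomial.map_mul, ← hF, hev]
    have h2 : IsUnit (Q.map (Polynomial.evalRingHom ρ)) := by
      refine isUnit_of_dvd_unit (Dvd.intro_left _ h1) isUnit_one.neg
    have h3 : (Q.map (Polynomial.evalRingHom ρ)).natDegree = Q.natDegree :=
      Polynomial.natDegree_map_of_leadingCoeff_ne_zero _ hQ
    rw [Polynomial.natDegree_eq_zero_of_isUnit h2] at h3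
    have h4 : Q = C (Q.coeff 0) := Polynomial.eq_C_of_natDegree_eq_zero h3.symm
    have h5 : Q.coeff 0 = Q.leadingCoeff := by
      rw [Polynomial.leadingCoeff, ← h3]
    rw [h4]
    refine (hc (Q.coeff 0) ?_ ?_).map C
    · rw [← h4]
      exact Dvd.intro_left _ hF.symm
    · rw [h5]
      exact hQ
  refine ⟨fun h => ?_, fun {P Q} hF => ?_⟩
  · have := Polynomial.natDegree_eq_zero_of_isUnit h
    omega
  · by_cases hQ : Q.leadingCoeff.eval ρ = 0
    · by_cases hP : P.leadingCoeff.eval ρ = 0
      · exfalso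
        apply hlc
        rw [hF, Polynomial.leadingCoeff_mul, pow_two]
        exact mul_dvd_mul (Polynomial.dvd_iff_isRoot.2 hP) (Polynomial.dvd_iff_isRoot.2 hQ)
      · exact Or.inl (key Q P (by rw [hF, mul_comm]) hP)
    · exact Or.inr (key P Q hF hQ)

theorem sub_one_props {G : Polynomial (Polynomial K)} (h : 1 ≤ G.natDegree) :
    (G - 1).natDegree = G.natDegree ∧ (G - 1).leadingCoeff = G.leadingCoeff := by
  have h1 : (1 : Polynomial (Polynomial K)).degree < G.degree := by
    rw [Polynomial.degree_one]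
    exact Polynomial.natDegree_pos_iff_degree_pos.1 h
  refine ⟨?_, Polynomial.leadingCoeff_sub_of_degree_lt h1⟩
  exact Polynomial.natDegree_eq_of_degree_eq (Polynomial.degree_sub_eq_left_of_degree_lt h1)

end irr

section dom

variable {K : Type*} [Field K] {r p : ℕ} (A : Arr K r p) {lam : K}

theorem eqn_one (hg : A.g = 1) : A.eqn lam =
    C (C lam) * ((∏ i, A.ly i ^ (A.w i + 1)) * ∏ k, A.lx k ^ A.nu k) - 1 := by
  rw [Arr.eqn_def, hg, one_mul]

/-- the product of the `(y - φ_i(x)) ^ (w_i + 1)` -/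
theorem monic_prod : (∏ i, A.ly i ^ (A.w i + 1)).Monic :=
  Polynomial.monic_prod_of_monic _ _ fun _ _ => (Polynomial.monic_X_sub_C _).pow _

theorem one_le_natDegree : 1 ≤ (∏ i, A.ly i ^ (A.w i + 1)).natDegree := by
  have h1 : A.ly 0 ∣ ∏ i, A.ly i ^ (A.w i + 1) :=
    (dvd_pow_self _ (Nat.succ_ne_zero _)).trans
      (Finset.dvd_prod_of_mem (fun i => A.ly i ^ (A.w i + 1)) (Finset.mem_univ 0))
  have h2 := Polynomial.natDegree_le_of_dvd h1 (monic_prod A).ne_zero
  have h3 : (A.ly 0).natDegree = 1 := Polynomial.natDegree_X_sub_C _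
  omega

theorem prod_lx : ∏ k, A.lx k ^ A.nu k = C (∏ k, (X - C (A.rho k)) ^ A.nu k) := by
  rw [map_prod]
  simp only [map_pow]
  rfl

theorem prod_rho_ne : ∏ k, (X - C (A.rho k)) ^ A.nu k ≠ 0 :=
  Finset.prod_ne_zero_iff.2 fun _ _ => pow_ne_zero _ (Polynomial.X_sub_C_ne_zero _)

theorem irreducible_a (hg : A.g = 1) (hl : lam ≠ 0) (hrho : Function.Injective A.rho)
    {k0 : Fin p} (hk : A.nu k0 = 1) : Irreducible (A.eqn lam) := by
  classical
  set M := ∏ i, A.ly i ^ (A.w i + 1) with hM
  set c : Polynomial K := C lam * ∏ k, (X - C (A.rho k)) ^ A.nu k with hc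
  have hc0 : c ≠ 0 := mul_ne_zero (Polynomial.C_ne_zero.2 hl) (prod_rho_ne A)
  have hF : A.eqn lam = C c * M - 1 := by
    rw [eqn_one A hg, prod_lx, hc, map_mul]
    ring
  have hlcG : (C c * M).leadingCoeff = c := by
    rw [Polynomial.leadingCoeff_mul, Polynomial.leadingCoeff_C, (monic_prod A).leadingCoeff,
      mul_one]
  have hdG : (C c * M).natDegree = M.natDegree := by
    rw [Polynomial.natDegree_C_mul hc0]
  have hd : 1 ≤ (C c * M).natDegree := by rw [hdG]; exact one_le_natDegree A
  obtain ⟨h1, h2⟩ := sub_one_props hd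
  have hcfac : c = (X - C (A.rho k0)) * (C lam * ∏ k ∈ Finset.univ.erase k0,
      (X - C (A.rho k)) ^ A.nu k) := by
    rw [hc, ← Finset.mul_prod_erase _ _ (Finset.mem_univ k0), hk, pow_one]
    ring
  have hrest : (C lam * ∏ k ∈ Finset.univ.erase k0,
      (X - C (A.rho k)) ^ A.nu k).eval (A.rho k0) ≠ 0 := by
    rw [Polynomial.eval_mul, Polynomial.eval_C, Polynomial.eval_prod]
    refine mul_ne_zero hl (Finset.prod_ne_zero_iff.2 fun k hk' => ?_)
    rw [Polynomial.eval_pow, Polynomial.eval_sub, Polynomial.eval_X, Polynomial.eval_C]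
    refine pow_ne_zero _ (sub_ne_zero.2 fun h => ?_)
    exact (Finset.ne_of_mem_erase hk') (hrho h).symm
  refine irr (A.rho k0) _ ?_ ?_ ?_ ?_
  · rw [hF, h1]
    exact hd
  · rw [hF, Polynomial.map_sub, Polynomial.map_one, Polynomial.map_mul, Polynomial.map_C]
    have h3 : Polynomial.evalRingHom (A.rho k0) c = 0 := by
      rw [Polynomial.coe_evalRingHom, hcfac, Polynomial.eval_mul, Polynomial.eval_sub,
        Polynomial.eval_X, Polynomial.eval_C, sub_self, zero_mul]
    rw [h3, map_zero, zero_mul, zero_sub]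
  · rw [hF, h2, hlcG, hcfac, pow_two]
    intro h3
    have h4 := (mul_dvd_mul_iff_left (Polynomial.X_sub_C_ne_zero (A.rho k0))).1 h3
    exact hrest (Polynomial.dvd_iff_isRoot.1 h4)
  · intro b hb _
    have h3 : b ∣ c := by
      obtain ⟨Q, hQ⟩ := hb
      have h4 := congrArg Polynomial.leadingCoeff hQ
      rw [hF, h2, hlcG, Polynomial.leadingCoeff_mul, Polynomial.leadingCoeff_C] at h4
      exact Dvd.intro _ h4.symm
    have h5 : b ∣ c * M.coeff 0 - 1 := by
      have h6 := (Polynomial.C_dvd_iff_dvd_coeff _ _).1 hb 0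
      rw [hF, Polynomial.coeff_sub, Polynomial.coeff_C_mul, Polynomial.coeff_one_zero] at h6
      exact h6
    have h6 : b ∣ c * M.coeff 0 - (c * M.coeff 0 - 1) := dvd_sub (h3.mul_right _) h5
    rw [sub_sub_cancel] at h6
    exact isUnit_of_dvd_one h6

theorem irreducible_b (hg : A.g = 1) (hl : lam ≠ 0) {i0 i1 : Fin (r + 1)} (hi : i1 ≠ i0)
    (hw : A.w i0 = 0) (hd : ∀ j, j ≠ i0 → 1 ≤ (A.phi i0 - A.phi j).natDegree) :
    Irreducible (A.eqn lam) := by
  classical
  set e : Polynomial (Polynomial K) ≃* Polynomial (Polynomial K) :=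
    ((Polynomial.algEquivAevalXAddC (A.phi i0)).toMulEquiv).trans
      (Polynomial.Bivariate.swap (R := K)).toMulEquiv with he
  rw [← MulEquiv.irreducible_iff e]
  set E : Polynomial (Polynomial K) →+* Polynomial (Polynomial K) :=
    ((Polynomial.Bivariate.swap (R := K)) : Polynomial (Polynomial K) →+* _).comp
      ((Polynomial.algEquivAevalXAddC (A.phi i0)) : Polynomial (Polynomial K) →+* _) with hE
  have heE : ∀ q, e q = E q := fun q => rfl
  have hEC : ∀ q : Polynomial K, E (C q) = q.map C := by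
    intro q
    show Polynomial.Bivariate.swap (Polynomial.algEquivAevalXAddC (A.phi i0) (C q)) = _
    rw [Polynomial.algEquivAevalXAddC_apply, Polynomial.aeval_C]
    exact Polynomial.Bivariate.swap_C q
  have hEX : E X = C X + (A.phi i0).map C := by
    show Polynomial.Bivariate.swap (Polynomial.algEquivAevalXAddC (A.phi i0) X) = _
    rw [Polynomial.algEquivAevalXAddC_apply, Polynomial.aeval_X, map_add,
      Polynomial.Bivariate.swap_Y, Polynomial.Bivariate.swap_C]
  have hEy : ∀ j, E (A.ly j) = C X + (A.phi i0 - A.phi j).map C := by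
    intro j
    unfold Arr.ly
    rw [map_sub, hEX, hEC, Polynomial.map_sub]
    ring
  have hEx : ∀ k, E (A.lx k) = X - C (C (A.rho k)) := by
    intro k
    unfold Arr.lx
    rw [hEC, Polynomial.map_sub, Polynomial.map_X, Polynomial.map_C]
  have hEl : E (C (C lam)) = C (C lam) := by
    rw [hEC, Polynomial.map_C]
  set G : Polynomial (Polynomial K) := C (C lam) *
    ((∏ i, (C X + (A.phi i0 - A.phi i).map C) ^ (A.w i + 1)) *
      ∏ k, (X - C (C (A.rho k))) ^ A.nu k) with hG
  have hF : e (A.eqn lam) = G - 1 := by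
    rw [heE, eqn_one A hg, map_sub, map_one, map_mul, map_mul, map_prod, map_prod, hEl]
    simp only [map_pow, hEy, hEx]
    rfl
  -- the leading coefficients
  have hdeg : ∀ j, j ≠ i0 → (C (X : Polynomial K) + (A.phi i0 - A.phi j).map C).natDegree =
      (A.phi i0 - A.phi j).natDegree ∧
      (C (X : Polynomial K) + (A.phi i0 - A.phi j).map C).leadingCoeff =
        C (A.phi i0 - A.phi j).leadingCoeff := by
    intro j hj
    have h1 : ((A.phi i0 - A.phi j).map (C : K →+* Polynomial K)).natDegree =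
        (A.phi i0 - A.phi j).natDegree := Polynomial.natDegree_map_eq_of_injective C_injective _
    have h2 : (C (X : Polynomial K)).degree <
        ((A.phi i0 - A.phi j).map (C : K →+* Polynomial K)).degree := by
      refine lt_of_le_of_lt Polynomial.degree_C_le ?_
      refine Polynomial.natDegree_pos_iff_degree_pos.1 ?_
      rw [h1]
      exact hd j hj
    refine ⟨?_, ?_⟩
    · rw [Polynomial.natDegree_eq_of_degree_eq (Polynomial.degree_add_eq_right_of_degree_lt h2),
        h1]
    · rw [Polynomial.leadingCoeff_add_of_degree_lt h2, Polynomial.leadingCoeff_map_of_injective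
        C_injective]
  have hne : ∀ j, j ≠ i0 → (A.phi i0 - A.phi j) ≠ 0 := by
    intro j hj h0
    have := hd j hj
    rw [h0, Polynomial.natDegree_zero] at this
    omega
  set c : K := lam * ∏ j ∈ Finset.univ.erase i0, (A.phi i0 - A.phi j).leadingCoeff ^
    (A.w j + 1) with hc
  have hc0 : c ≠ 0 := mul_ne_zero hl (Finset.prod_ne_zero_iff.2 fun j hj =>
    pow_ne_zero _ (Polynomial.leadingCoeff_ne_zero.2 (hne j (Finset.ne_of_mem_erase hj))))
  have hlcG : G.leadingCoeff = C c * X := by
    rw [hG, Polynomial.leadingCoeff_mul, Polynomial.leadingCoeff_mul,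
      Polynomial.leadingCoeff_prod, Polynomial.leadingCoeff_prod, Polynomial.leadingCoeff_C,
      ← Finset.mul_prod_erase _ _ (Finset.mem_univ i0)]
    have h1 : ∏ k, ((X - C (C (A.rho k)) : Polynomial (Polynomial K)) ^ A.nu k).leadingCoeff =
        1 := by
      refine Finset.prod_eq_one fun k _ => ?_
      rw [Polynomial.leadingCoeff_pow, Polynomial.leadingCoeff_X_sub_C, one_pow]
    have h2 : ((C (X : Polynomial K) + (A.phi i0 - A.phi i0).map C) ^ (A.w i0 + 1)
        ).leadingCoeff = X := by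
      rw [sub_self, Polynomial.map_zero, add_zero, hw, zero_add, pow_one,
        Polynomial.leadingCoeff_C]
    have h3 : ∏ j ∈ Finset.univ.erase i0, ((C (X : Polynomial K) +
        (A.phi i0 - A.phi j).map C) ^ (A.w j + 1)).leadingCoeff =
        C (∏ j ∈ Finset.univ.erase i0, (A.phi i0 - A.phi j).leadingCoeff ^ (A.w j + 1)) := by
      rw [map_prod]
      refine Finset.prod_congr rfl fun j hj => ?_
      rw [Polynomial.leadingCoeff_pow, (hdeg j (Finset.ne_of_mem_erase hj)).2, map_pow]
    rw [h1, h2, h3, hc, map_mul]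
    ring
  have hG0 : G ≠ 0 := by
    intro h0
    rw [h0, Polynomial.leadingCoeff_zero] at hlcG
    exact mul_ne_zero (Polynomial.C_ne_zero.2 hc0) Polynomial.X_ne_zero hlcG.symm
  have hGd : 1 ≤ G.natDegree := by
    have h1 : C X + (A.phi i0 - A.phi i1).map C ∣ G := by
      rw [hG]
      refine Dvd.dvd.mul_left (Dvd.dvd.mul_right ?_ _) _
      exact (dvd_pow_self _ (Nat.succ_ne_zero _)).trans
        (Finset.dvd_prod_of_mem (fun i => (C X + (A.phi i0 - A.phi i).map C) ^ (A.w i + 1))
          (Finset.mem_univ i1))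
    have h2 := Polynomial.natDegree_le_of_dvd h1 hG0
    rw [(hdeg i1 hi).1] at h2
    exact (hd i1 hi).trans h2
  obtain ⟨h1, h2⟩ := sub_one_props hGd
  rw [hF]
  refine irr 0 _ ?_ ?_ ?_ ?_
  · rw [h1]
    exact hGd
  · rw [Polynomial.map_sub, Polynomial.map_one]
    have h3 : G.map (Polynomial.evalRingHom 0) = 0 := by
      rw [hG, Polynomial.map_mul, Polynomial.map_mul, Polynomial.map_prod,
        Finset.prod_eq_zero (Finset.mem_univ i0), zero_mul, mul_zero]
      rw [sub_self, Polynomial.map_zero, add_zero, hw, zero_add, pow_one, Polynomial.map_C,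
        Polynomial.coe_evalRingHom, Polynomial.eval_X, map_zero]
    rw [h3, zero_sub]
  · rw [h2, hlcG, map_zero, sub_zero, pow_two]
    intro h3
    have h4 := (mul_dvd_mul_iff_right (Polynomial.X_ne_zero (R := K))).1 h3
    have h5 := Polynomial.X_dvd_iff.1 h4
    rw [Polynomial.coeff_C_zero] at h5
    exact hc0 h5
  · intro b hb hb0
    obtain ⟨Q, hQ⟩ := hb
    have h4 := congrArg Polynomial.leadingCoeff hQ
    rw [h2, hlcG, Polynomial.leadingCoeff_mul, Polynomial.leadingCoeff_C] at h4
    have h5 : X ∣ b * Q.leadingCoeff := by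
      rw [← h4]
      exact Dvd.intro_left _ rfl
    rcases Polynomial.prime_X.dvd_or_dvd h5 with h6 | h6
    · exfalso
      apply hb0
      rw [← Polynomial.coeff_zero_eq_eval_zero]
      exact Polynomial.X_dvd_iff.1 h6
    · obtain ⟨q, hq⟩ := h6
      rw [hq, mul_left_comm, mul_comm (C c) X] at h4
      have h7 := mul_left_cancel₀ (Polynomial.X_ne_zero (R := K)) h4
      exact isUnit_of_dvd_unit (Dvd.intro _ h7.symm) (Polynomial.isUnit_C.2
        (isUnit_iff_ne_zero.2 hc0))

theorem isDomain_of_irreducible (hg : A.g = 1) (hl : lam ≠ 0)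
    (h : Irreducible (A.eqn lam)) : IsDomain (A.CRing lam) ∧ IsDomain (A.Open lam) := by
  have hp : Prime (A.eqn lam) := h.prime
  have h1 : IsDomain (A.CRing lam) := AdjoinRoot.isDomain_of_prime hp
  have hz : ∀ q, A.mkC lam q = 0 ↔ A.eqn lam ∣ q := fun q => AdjoinRoot.mk_eq_zero
  refine ⟨h1, ?_⟩
  have hne : A.den lam ≠ 0 := by
    intro h0
    unfold Arr.den at h0
    rw [hz] at h0
    have h2 : A.allX = C (∏ k, (X - C (A.rho k))) := by
      rw [map_prod]
      rfl
    have h3 : A.allX ≠ 0 := by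
      rw [h2]
      exact Polynomial.C_ne_zero.2 (Finset.prod_ne_zero_iff.2 fun k _ =>
        Polynomial.X_sub_C_ne_zero _)
    have h4 := Polynomial.natDegree_le_of_dvd h0 h3
    rw [h2, Polynomial.natDegree_C] at h4
    set c : Polynomial K := C lam * ∏ k, (X - C (A.rho k)) ^ A.nu k with hc
    have hc0 : c ≠ 0 := mul_ne_zero (Polynomial.C_ne_zero.2 hl) (prod_rho_ne A)
    have hF : A.eqn lam = C c * (∏ i, A.ly i ^ (A.w i + 1)) - 1 := by
      rw [eqn_one A hg, prod_lx, hc, map_mul]
      ring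
    have hd : 1 ≤ (C c * (∏ i, A.ly i ^ (A.w i + 1))).natDegree := by
      rw [Polynomial.natDegree_C_mul hc0]
      exact one_le_natDegree A
    have h5 := (sub_one_props hd).1
    rw [← hF] at h5
    omega
  exact IsLocalization.isDomain_of_le_nonZeroDivisors (A.Open lam)
    (powers_le_nonZeroDivisors_of_noZeroDivisors hne)

end dom

end Pool.Agent.Y797.GC
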