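import Pool.Agent.Y797.GC.Smooth
import Pool.Agent.Y797.GC.Reg
set_option autoImplicit false

/-!
The points at infinity of the curves, and the number of the classes in the nodal case.
-/

namespace Pool.Agent.Y797.GC

section smooth

variable {K : Type*} [Field K] {r p : ℕ} (A : Arr K r p)

/-- the derivative of a product of distinct linear factors at a zero -/
theorem deriv_prod_ne {ι : Type*} [Fintype ι] (c : ℂ) (hc : c ≠ 0) (a : ι → ℂ)
    (n : ι → ℕ) (hn : ∀ i, n i ≤ 1) (ha : ∀ i j, n i = 1 → n j = 1 → a i = a j → i = j) (b : ℂ)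
    (hb : b = 0) (x : ℂ)
    (hx : c * ∏ i, (x - a i) ^ n i - b = 0) :
    deriv (fun t => c * ∏ i, (t - a i) ^ n i - b) x ≠ 0 := by
  classical
  subst hb
  rw [sub_zero] at hx
  have h0 : ∏ i, (x - a i) ^ n i = 0 := (mul_eq_zero.1 hx).resolve_left hc
  obtain ⟨i, -, hi⟩ := Finset.prod_eq_zero_iff.1 h0
  have hni : n i = 1 := by
    by_contra h
    have h2 : n i = 0 := by have := hn i; omega
    rw [h2, pow_zero] at hi
    exact one_ne_zero hi
  rw [hni, pow_one] at hi
  have e : (fun t => c * ∏ i, (t - a i) ^ n i - 0) = fun t => (t - a i) *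
      (c * ∏ j ∈ Finset.univ.erase i, (t - a j) ^ n j) := by
    funext t
    rw [← Finset.mul_prod_erase _ _ (Finset.mem_univ i), hni, pow_one]
    ring
  rw [e]
  have hd2 : DifferentiableAt ℂ (fun t => c * ∏ j ∈ Finset.univ.erase i, (t - a j) ^ n j) x :=
    (DifferentiableAt.fun_finsetProd fun j _ =>
      ((differentiableAt_id.sub_const _).pow _)).const_mul c
  have h1 : HasDerivAt (fun t => t - a i) 1 x := (hasDerivAt_id x).sub_const _
  have h2 := h1.mul hd2.hasDerivAt
  have h3 : deriv (fun t => (t - a i) * (c * ∏ j ∈ Finset.univ.erase i, (t - a j) ^ n j)) x =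
      _ := h2.deriv
  rw [h3, hi, zero_mul, add_zero, one_mul]
  refine mul_ne_zero hc (Finset.prod_ne_zero_iff.2 fun j hj => ?_)
  by_cases hnj : n j = 1
  · rw [hnj, pow_one]
    intro h4
    have h5 : a i = a j := by
      rw [← sub_eq_zero.1 hi, ← sub_eq_zero.1 h4]
    exact Finset.ne_of_mem_erase hj (ha i j hni hnj h5).symm
  · have h6 : n j = 0 := by have := hn j; omega
    rw [h6, pow_zero]
    exact one_ne_zero

theorem smoothInf {lam : K} (σ : K →+* ℂ) (hl : lam ≠ 0) {d : ℕ}
    (hnu : ∀ k, A.nu k ≤ 1) (hrho : Function.Injective A.rho)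
    (hc : ∀ i j, i ≠ j → (A.phi i).coeff d ≠ (A.phi j).coeff d)
    (hpos : 0 < (r + 1) * d + ∑ k, A.nu k) : A.SmoothInf lam σ d := by
  have hl0 : σ lam ≠ 0 := (map_ne_zero σ).2 hl
  have hr0 : ∀ i, ((A.phi i).reflect d).eval₂ σ 0 = σ ((A.phi i).coeff d) := by
    intro i
    rw [Polynomial.eval₂_at_zero, Polynomial.coeff_reflect, Polynomial.revAt_le (Nat.zero_le d),
      Nat.sub_zero]
  refine ⟨fun Y hY => ?_, fun x hx => ?_, ?_⟩
  · have e : (fun t => A.valX lam σ d 0 t) = fun t => σ lam *
        ∏ i, (t - σ ((A.phi i).coeff d)) ^ 1 - 0 := by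
      funext t
      unfold Arr.valX
      simp only [hr0, mul_zero, sub_zero, one_pow, Finset.prod_const_one, mul_one,
        zero_pow hpos.ne', pow_one]
    have hY' := congrFun e Y
    rw [hY] at hY'
    rw [e]
    refine deriv_prod_ne (σ lam) hl0 (fun i => σ ((A.phi i).coeff d)) (fun _ => 1)
      (fun _ => le_rfl) (fun i j _ _ h => ?_) 0 rfl Y hY'.symm
    by_contra hne
    exact hc i j hne (σ.injective h)
  · have e : (fun t => A.valY lam σ t 0) = fun t => σ lam *
        ∏ k, (t - σ (A.rho k)) ^ A.nu k - 0 := by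
      funext t
      unfold Arr.valY
      simp only [mul_zero, sub_zero, Finset.prod_const_one, one_mul,
        zero_pow (Nat.succ_ne_zero r)]
    have hx' := congrFun e x
    rw [hx] at hx'
    rw [e]
    exact deriv_prod_ne (σ lam) hl0 (fun k => σ (A.rho k)) A.nu hnu
      (fun i j _ _ h => hrho (σ.injective h)) 0 rfl x hx'.symm
  · unfold Arr.valXY
    simp only [mul_zero, sub_zero, Finset.prod_const_one, one_pow, mul_one,
      zero_pow (Nat.succ_ne_zero r)]
    exact hl0

/-- the coefficients of `x ^ d` are different in the nodal case -/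
theorem coeff_ne {d : ℕ} (hphi : Function.Injective A.phi) (hrho : Function.Injective A.rho)
    (hd : ∀ i, (A.phi i).natDegree ≤ d) (h : A.Nodal d) (i j : Fin (r + 1)) (hij : i ≠ j) :
    (A.phi i).coeff d ≠ (A.phi j).coeff d := by
  classical
  intro hc
  set f := A.phi i - A.phi j with hf
  have hf0 : f ≠ 0 := sub_ne_zero.2 fun h => hij (hphi h)
  have hfd : f.natDegree ≤ d := 
    (Polynomial.natDegree_sub_le_of_le (hd i) (hd j)).trans_eq (max_self d)
  have h1 := h.1 i j hij
  have h2 : d ≤ f.natDegree := by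
    have h3 : (Finset.univ.filter fun k => A.nu k = 0 ∧
        (A.phi i).eval (A.rho k) = (A.phi j).eval (A.rho k)).image A.rho ⊆ f.roots.toFinset := by
      intro z hz
      obtain ⟨k, hk, rfl⟩ := Finset.mem_image.1 hz
      rw [Multiset.mem_toFinset, Polynomial.mem_roots hf0, Polynomial.IsRoot, hf,
        Polynomial.eval_sub, (Finset.mem_filter.1 hk).2.2, sub_self]
    have h4 := Finset.card_le_card h3
    rw [Finset.card_image_of_injective _ hrho] at h4
    have h5 := f.roots.toFinset_card_le
    have h6 := Polynomial.card_roots' f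
    have h7 : (Finset.univ.filter fun k => A.nu k = 0 ∧
        (A.phi i).eval (A.rho k) = (A.phi j).eval (A.rho k)).card = d := by
      convert h1
    omega
  have h3 : f.natDegree = d := le_antisymm hfd h2
  have h4 : f.coeff d = 0 := by
    rw [hf, Polynomial.coeff_sub, hc, sub_self]
  rw [← h3] at h4
  exact hf0 (Polynomial.leadingCoeff_eq_zero.1 h4)

end smooth

section count

variable {K : Type*} [Field K] {r p : ℕ} (A : Arr K r p)

open Classical in
theorem card_values {ι α : Type*} [Fintype ι] (f : ι → α)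
    (h : ∀ i j l, i ≠ j → i ≠ l → j ≠ l → f i = f j → f i ≠ f l) :
    (Finset.univ.filter fun q : ι × ι => q.1 ≠ q.2 ∧ f q.1 = f q.2).card +
      2 * (Finset.univ.image f).card = 2 * Fintype.card ι := by
  have h1 : (Finset.univ.filter fun q : ι × ι => q.1 ≠ q.2 ∧ f q.1 = f q.2).card =
      ∑ z ∈ Finset.univ.image f, ((Finset.univ.filter fun i => f i = z).offDiag).card := by
    rw [Finset.card_eq_sum_card_fiberwise (f := fun q : ι × ι => f q.1)
      (t := Finset.univ.image f) fun q _ => Finset.mem_image_of_mem _ (Finset.mem_univ _)]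
    refine Finset.sum_congr rfl fun z _ => congrArg Finset.card ?_
    ext q
    simp only [Finset.mem_filter, Finset.mem_univ, true_and, Finset.mem_offDiag]
    constructor
    · rintro ⟨⟨h1, h2⟩, h3⟩
      exact ⟨h3, h2 ▸ h3, h1⟩
    · rintro ⟨h1, h2, h3⟩
      exact ⟨⟨h3, h1.trans h2.symm⟩, h1⟩
  have h2 : Fintype.card ι = ∑ z ∈ Finset.univ.image f,
      (Finset.univ.filter fun i => f i = z).card := by
    rw [← Finset.card_univ]
    exact Finset.card_eq_sum_card_fiberwise fun i hi => Finset.mem_image_of_mem _ hi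
  rw [h1, h2, Finset.card_eq_sum_ones, Finset.mul_sum, Finset.mul_sum, ← Finset.sum_add_distrib]
  refine Finset.sum_congr rfl fun z hz => ?_
  rw [Finset.offDiag_card]
  obtain ⟨i, -, hi⟩ := Finset.mem_image.1 hz
  have h3 : 1 ≤ (Finset.univ.filter fun i => f i = z).card :=
    Finset.card_pos.2 ⟨i, Finset.mem_filter.2 ⟨Finset.mem_univ _, hi⟩⟩
  have h4 : (Finset.univ.filter fun i => f i = z).card ≤ 2 := by
    by_contra hcon
    rw [not_le] at hcon
    obtain ⟨a, b, c, ha, hb, hc, hab, hac, hbc⟩ := Finset.two_lt_card_iff.1 hcon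
    have ha' := (Finset.mem_filter.1 ha).2
    have hb' := (Finset.mem_filter.1 hb).2
    have hc' := (Finset.mem_filter.1 hc).2
    exact h a b c hab hac hbc (ha'.trans hb'.symm) (ha'.trans hc'.symm)
  interval_cases (Finset.univ.filter fun i => f i = z).card <;> rfl

/-- The number of the classes in the nodal case. -/
theorem genus_le {d : ℕ} (hnu : ∀ k, A.nu k ≤ 1) (h : A.Nodal d) :
    (r + 1).choose 2 * d + r * ∑ k, A.nu k ≤ A.dim + r := by
  classical
  obtain ⟨h1, h2⟩ := h
  have hfin := finrank_Adm A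
  -- the numbers of ordered pairs
  set N : Fin p → ℕ := fun k => if A.nu k = 0 then
    (Finset.univ.filter fun q : Fin (r + 1) × Fin (r + 1) => q.1 ≠ q.2 ∧
      (A.phi q.1).eval (A.rho k) = (A.phi q.2).eval (A.rho k)).card else 0 with hN
  have hsumN : ∑ k, N k = (r + 1) * r * d := by
    have e1 : ∀ k, N k = ∑ q : Fin (r + 1) × Fin (r + 1), if (q.1 ≠ q.2 ∧ (A.nu k = 0 ∧
        (A.phi q.1).eval (A.rho k) = (A.phi q.2).eval (A.rho k))) then 1 else 0 := by
      intro k
      rw [hN]
      by_cases hk : A.nu k = 0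
      · simp only [hk, if_true, true_and, Finset.card_filter]
      · simp only [hk, if_false, false_and, and_false, Finset.sum_const_zero]
    simp only [e1]
    rw [Finset.sum_comm]
    have e2 : ∀ q : Fin (r + 1) × Fin (r + 1), (∑ k, if (q.1 ≠ q.2 ∧ (A.nu k = 0 ∧
        (A.phi q.1).eval (A.rho k) = (A.phi q.2).eval (A.rho k))) then 1 else 0) =
        if q.1 ≠ q.2 then d else 0 := by
      intro q
      by_cases hq : q.1 ≠ q.2
      · simp only [hq, true_and, ne_eq, not_false_iff, if_true]
        rw [← h1 q.1 q.2 hq, Finset.card_filter]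
      · simp only [hq, false_and, if_false, Finset.sum_const_zero]
    simp only [e2]
    rw [← Finset.sum_filter, Finset.sum_const, smul_eq_mul]
    congr 1
    have e3 : (Finset.univ.filter fun q : Fin (r + 1) × Fin (r + 1) => q.1 ≠ q.2) =
        (Finset.univ : Finset (Fin (r + 1))).offDiag := by
      ext q
      simp [Finset.mem_offDiag]
    rw [e3, Finset.offDiag_card, Finset.card_univ, Fintype.card_fin]
    exact Nat.sub_eq_of_eq_add (by ring)
  have hval : ∀ k, N k + 2 * (if A.nu k = 0 then (Finset.univ.image fun i =>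
      (A.phi i).eval (A.rho k)).card else 1) + 2 * r * A.nu k = 2 * (r + 1) := by
    intro k
    by_cases hk : A.nu k = 0
    · have h3 := card_values (fun i => (A.phi i).eval (A.rho k)) (h2 k hk)
      rw [Fintype.card_fin] at h3
      simp only [hN, hk, if_true, mul_zero, add_zero]
      convert h3
    · have h3 : A.nu k = 1 := by have := hnu k; omega
      simp only [hN, h3, one_ne_zero, if_false]
      omega
  have hsum : ∑ k, N k + 2 * (∑ k, if A.nu k = 0 then (Finset.univ.image fun i =>
      (A.phi i).eval (A.rho k)).card else 1) + 2 * r * ∑ k, A.nu k = 2 * (r + 1) * p := by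
    rw [Finset.mul_sum, Finset.mul_sum, ← Finset.sum_add_distrib, ← Finset.sum_add_distrib,
      Finset.sum_congr rfl fun k _ => hval k, Finset.sum_const, Finset.card_univ,
      Fintype.card_fin, smul_eq_mul]
    ring
  rw [hsumN] at hsum
  have hch : 2 * (r + 1).choose 2 = (r + 1) * r := by
    rw [Nat.choose_two_right, Nat.add_sub_cancel]
    exact Nat.mul_div_cancel' (by
      rw [mul_comm]
      exact (Nat.even_mul_succ_self r).two_dvd)
  unfold Arr.comps at hfin
  have h5 : 2 * ((r + 1).choose 2 * d) = (r + 1) * r * d := by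
    rw [← hch]
    ring
  have h6 : 2 * (r * ∑ k, A.nu k) = 2 * r * ∑ k, A.nu k := by ring
  have h7 : 2 * ((r + 1) * p) = 2 * (r + 1) * p := by ring
  set X := ∑ k, if A.nu k = 0 then (Finset.univ.image fun i =>
      (A.phi i).eval (A.rho k)).card else 1 with hX
  omega

end count

end Pool.Agent.Y797.GC
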