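import Pool.Agent.TH826.MK.Torus
set_option autoImplicit false

/-!
Definitions: the plane curves `λ g ∏_i (y - φ_i(x)) ^ (w_i + 1) ∏_k (x - ρ_k) ^ ν_k = 1`, and the
combinations of the symbols `{y - φ_i(x), x - ρ_k}`.
-/

namespace Pool.Agent.Y797.GC

open Pool.Agent.TH826.MK (KQ symb Torus)

open Polynomial (C X)

section away

variable (R : Type*) [CommRing R] (x : R)

/-- The localization `R[1/x]`. -/
def Away : Type _ := Localization.Away x

noncomputable instance : CommRing (Away R x) :=
  show CommRing (Localization.Away x) from inferInstance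

noncomputable instance : Algebra R (Away R x) :=
  show Algebra R (Localization.Away x) from inferInstance

instance : IsLocalization.Away x (Away R x) :=
  show IsLocalization.Away x (Localization.Away x) from inferInstance

end away

/-- The data of an arrangement of graphs of polynomials and of vertical lines: the graphs
`y = φ_i(x)` with the multiplicities `w_i + 1`, the lines `x = ρ_k` with the multiplicities `ν_k`
(which may be zero), and a further polynomial `g` in `K[x][y]`. -/
structure Arr (K : Type*) [Field K] (r p : ℕ) where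
  /-- the polynomials `φ_i(x)` -/
  phi : Fin (r + 1) → Polynomial K
  /-- the numbers `w_i` -/
  w : Fin (r + 1) → ℕ
  /-- the numbers `ρ_k` -/
  rho : Fin p → K
  /-- the numbers `ν_k` -/
  nu : Fin p → ℕ
  /-- the polynomial `g(x, y)` in `K[x][y]` -/
  g : Polynomial (Polynomial K)

namespace Arr

variable {K : Type*} [Field K] {r p : ℕ} (A : Arr K r p) (lam : K)

/-- The polynomial `y - φ_i(x)`. -/
noncomputable def ly (i : Fin (r + 1)) : Polynomial (Polynomial K) := X - C (A.phi i)

/-- The polynomial `x - ρ_k`. -/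
noncomputable def lx (k : Fin p) : Polynomial (Polynomial K) := C (X - C (A.rho k))

/-- The polynomial `∏_i (y - φ_i(x)) ^ (w_i + 1)`. -/
noncomputable def prodY : Polynomial (Polynomial K) := ∏ i, A.ly i ^ (A.w i + 1)

/-- The polynomial `∏_k (x - ρ_k) ^ ν_k`. -/
noncomputable def prodX : Polynomial (Polynomial K) := ∏ k, A.lx k ^ A.nu k

/-- The polynomial `∏_k (x - ρ_k)`. -/
noncomputable def allX : Polynomial (Polynomial K) := ∏ k, A.lx k

/-- The polynomial `λ g ∏_i (y - φ_i(x)) ^ (w_i + 1) ∏_k (x - ρ_k) ^ ν_k - 1`. -/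
noncomputable def eqn : Polynomial (Polynomial K) :=
  C (C lam) * (A.g * (A.prodY * A.prodX)) - 1

theorem eqn_def : A.eqn lam =
    C (C lam) * (A.g * ((∏ i, A.ly i ^ (A.w i + 1)) * ∏ k, A.lx k ^ A.nu k)) - 1 := rfl

/-- The coordinate ring `K[x][y] / (λ g ∏_i (y - φ_i(x)) ^ (w_i + 1) ∏_k (x - ρ_k) ^ ν_k - 1)` of the
curve. -/
def CRing : Type _ := AdjoinRoot (A.eqn lam)

noncomputable instance : CommRing (A.CRing lam) := AdjoinRoot.instCommRing (A.eqn lam)

/-- The functions on the curve defined by the polynomials. -/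
noncomputable def mkC : Polynomial (Polynomial K) →+* A.CRing lam := AdjoinRoot.mk (A.eqn lam)

/-- The function `∏_k (x - ρ_k)` on the curve. -/
noncomputable def den : A.CRing lam := A.mkC lam A.allX

/-- The coordinate ring of the part of the curve on which no `x - ρ_k` vanishes. -/
def Open : Type _ := Away (A.CRing lam) (A.den lam)

noncomputable instance : CommRing (A.Open lam) :=
  show CommRing (Away (A.CRing lam) (A.den lam)) from inferInstance

noncomputable instance : Algebra (A.CRing lam) (A.Open lam) :=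
  show Algebra (A.CRing lam) (Away (A.CRing lam) (A.den lam)) from inferInstance

instance : IsLocalization.Away (A.den lam) (A.Open lam) :=
  show IsLocalization.Away (A.den lam) (Away (A.CRing lam) (A.den lam)) from inferInstance

/-- The functions on the open part defined by the polynomials. -/
noncomputable def toO : Polynomial (Polynomial K) →+* A.Open lam :=
  (algebraMap (A.CRing lam) (A.Open lam)).comp (A.mkC lam)

theorem mkC_eqn : A.mkC lam (A.eqn lam) = 0 := AdjoinRoot.mk_self

theorem mkC_surjective : Function.Surjective (A.mkC lam) := AdjoinRoot.mk_surjective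

theorem toO_eqn : A.toO lam (A.eqn lam) = 0 := by
  unfold toO
  rw [RingHom.comp_apply, mkC_eqn, map_zero]

theorem prod_of_hom {B : Type*} [CommRing B] (F : Polynomial (Polynomial K) →+* B)
    (h : F (A.eqn lam) = 0) : F (C (C lam)) * (F A.g *
    ((∏ i, F (A.ly i) ^ (A.w i + 1)) * ∏ k, F (A.lx k) ^ A.nu k)) = 1 := by
  rw [eqn_def, map_sub, map_one, sub_eq_zero] at h
  rw [← h]
  simp only [map_mul, map_prod, map_pow]

theorem isUnit_y (i : Fin (r + 1)) : IsUnit (A.toO lam (A.ly i)) := by
  refine isUnit_of_dvd_one ?_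
  rw [← A.prod_of_hom lam (A.toO lam) (A.toO_eqn lam)]
  refine Dvd.dvd.mul_left (Dvd.dvd.mul_left (Dvd.dvd.mul_right ?_ _) _) _
  exact (dvd_pow_self _ (Nat.succ_ne_zero _)).trans
    (Finset.dvd_prod_of_mem (fun i => A.toO lam (A.ly i) ^ (A.w i + 1)) (Finset.mem_univ i))

theorem isUnit_x (k : Fin p) : IsUnit (A.toO lam (A.lx k)) := by
  have h : IsUnit (A.toO lam A.allX) :=
    IsLocalization.Away.algebraMap_isUnit (S := A.Open lam) (A.den lam)
  exact isUnit_of_dvd_unit (map_dvd (A.toO lam) (Finset.dvd_prod_of_mem A.lx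
    (Finset.mem_univ k))) h

/-- The unit `y - φ_i(x)`. -/
noncomputable def uy (i : Fin (r + 1)) : (A.Open lam)ˣ := (A.isUnit_y lam i).unit

/-- The unit `x - ρ_k`. -/
noncomputable def ux (k : Fin p) : (A.Open lam)ˣ := (A.isUnit_x lam k).unit

/-- The class `∑_{i,k} n_{i,k} {y - φ_i(x), x - ρ_k}` in `K_2 ⊗ ℚ` of the open part. -/
noncomputable def cl (n : Fin (r + 1) → Fin p → ℚ) : KQ (A.Open lam) 2 :=
  ∑ i, ∑ k, n i k • symb ![A.uy lam i, A.ux lam k]

open Classical in
/-- The coefficients are admissible: the sums of the rows and of the columns of `n` vanish, and if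
`ν_k = 0`, the sums of the `n_{i,k}` over all `i` such that `φ_i(ρ_k)` has a given value vanish. -/
def IsAdm (n : Fin (r + 1) → Fin p → ℚ) : Prop :=
  (∀ i, ∑ k, n i k = 0) ∧ (∀ k, ∑ i, n i k = 0) ∧
    ∀ k, A.nu k = 0 → ∀ z : K,
      ∑ i ∈ Finset.univ.filter (fun i => (A.phi i).eval (A.rho k) = z), n i k = 0

theorem isAdm_zero : A.IsAdm 0 := ⟨fun _ => by simp, fun _ => by simp, fun _ _ _ => by simp⟩

theorem isAdm_add {a b : Fin (r + 1) → Fin p → ℚ} (ha : A.IsAdm a) (hb : A.IsAdm b) :
    A.IsAdm (a + b) := by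
  obtain ⟨h1, h2, h3⟩ := ha
  obtain ⟨h4, h5, h6⟩ := hb
  refine ⟨fun i => ?_, fun k => ?_, fun k hk z => ?_⟩
  · simp only [Pi.add_apply, Finset.sum_add_distrib, h1 i, h4 i, add_zero]
  · simp only [Pi.add_apply, Finset.sum_add_distrib, h2 k, h5 k, add_zero]
  · simp only [Pi.add_apply, Finset.sum_add_distrib, h3 k hk z, h6 k hk z, add_zero]

theorem isAdm_smul (c : ℚ) {a : Fin (r + 1) → Fin p → ℚ} (ha : A.IsAdm a) :
    A.IsAdm (c • a) := by
  obtain ⟨h1, h2, h3⟩ := ha
  refine ⟨fun i => ?_, fun k => ?_, fun k hk z => ?_⟩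
  · simp only [Pi.smul_apply, ← Finset.smul_sum, h1 i, smul_zero]
  · simp only [Pi.smul_apply, ← Finset.smul_sum, h2 k, smul_zero]
  · simp only [Pi.smul_apply, ← Finset.smul_sum, h3 k hk z, smul_zero]

/-- The space of the admissible coefficients. -/
def Adm : Submodule ℚ (Fin (r + 1) → Fin p → ℚ) where
  carrier := {n | A.IsAdm n}
  zero_mem' := A.isAdm_zero
  add_mem' := A.isAdm_add
  smul_mem' c _ := A.isAdm_smul c

/-- The dimension of the space of the admissible coefficients. -/
noncomputable def dim : ℕ := Module.finrank ℚ A.Adm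

/-- A basis of the space of the admissible coefficients: a linearly independent family of the length
of the dimension of the space. -/
def IsBasis (B : Fin A.dim → Fin (r + 1) → Fin p → ℚ) : Prop :=
  (∀ m, A.IsAdm (B m)) ∧ LinearIndependent ℚ B

/-- The matrix of the regulators of the classes of the `B_m` on the loops `Γ_l`. -/
noncomputable def regMat (Γ : Fin A.dim → Torus (A.Open lam) 1)
    (B : Fin A.dim → Fin (r + 1) → Fin p → ℚ) : Matrix (Fin A.dim) (Fin A.dim) ℝ :=
  Matrix.of fun l m => (Γ l).reg (A.cl lam (B m))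

open Classical in
/-- The number of the components of the arrangement after separating the lines `x = ρ_k` with
`ν_k = 0`: the `r + 1` graphs, one component for every `k` with `ν_k > 0`, and for every `k` with
`ν_k = 0` as many components as there are points of the graphs on the line `x = ρ_k`. -/
noncomputable def comps : ℕ := r + 1 + ∑ k,
  if A.nu k = 0 then (Finset.univ.image fun i => (A.phi i).eval (A.rho k)).card else 1

/-- The affine equation of the curve, as a function of two complex variables. -/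
noncomputable def val (σ : K →+* ℂ) (x y : ℂ) : ℂ :=
  (A.eqn lam).eval₂ (Polynomial.eval₂RingHom σ x) y

/-- The equation (with `g = 1`, `w_i = 0`) in the coordinates `s = 1 / x`, `Y = y / x ^ d`. -/
noncomputable def valX (σ : K →+* ℂ) (d : ℕ) (s Y : ℂ) : ℂ :=
  σ lam * ((∏ i, (Y - ((A.phi i).reflect d).eval₂ σ s)) * ∏ k, (1 - σ (A.rho k) * s) ^ A.nu k) -
    s ^ ((r + 1) * d + ∑ k, A.nu k)

/-- The equation (with `g = 1`, `w_i = 0`) in the coordinates `x`, `H = 1 / y`. -/
noncomputable def valY (σ : K →+* ℂ) (x H : ℂ) : ℂ :=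
  σ lam * ((∏ i, (1 - (A.phi i).eval₂ σ x * H)) * ∏ k, (x - σ (A.rho k)) ^ A.nu k) -
    H ^ (r + 1)

/-- The equation (with `g = 1`, `w_i = 0`) in the coordinates `s = 1 / x`, `H = x ^ d / y`. -/
noncomputable def valXY (σ : K →+* ℂ) (d : ℕ) (s H : ℂ) : ℂ :=
  σ lam * ((∏ i, (1 - ((A.phi i).reflect d).eval₂ σ s * H)) *
    ∏ k, (1 - σ (A.rho k) * s) ^ A.nu k) - s ^ ((r + 1) * d + ∑ k, A.nu k) * H ^ (r + 1)

/-- The curve is smooth (over `σ`): at all its complex points one of the partial derivatives of the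
equation does not vanish. -/
def Smooth (σ : K →+* ℂ) : Prop :=
  ∀ x y : ℂ, A.val lam σ x y = 0 →
    deriv (fun t => A.val lam σ t y) x ≠ 0 ∨ deriv (fun t => A.val lam σ x t) y ≠ 0

/-- The closure in the Hirzebruch surface of the lines `x = ∞` and `y = ∞`, glued from the four
charts `(x, y)`, `(1 / x, y / x ^ d)`, `(x, 1 / y)`, `(1 / x, x ^ d / y)`, is smooth at the points on
these lines: a partial derivative of the equation does not vanish, and the intersection of the two
lines does not lie on the curve. -/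
def SmoothInf (σ : K →+* ℂ) (d : ℕ) : Prop :=
  (∀ Y : ℂ, A.valX lam σ d 0 Y = 0 → deriv (fun t => A.valX lam σ d 0 t) Y ≠ 0) ∧
  (∀ x : ℂ, A.valY lam σ x 0 = 0 → deriv (fun t => A.valY lam σ t 0) x ≠ 0) ∧
  A.valXY lam σ d 0 0 ≠ 0

open Classical in
/-- All crossings of the graphs lie over numbers `ρ_k` with `ν_k = 0` and are simple: any two graphs
meet over exactly `d` of the `ρ_k` with `ν_k = 0`, and no three graphs meet over such a `ρ_k`. -/
def Nodal (d : ℕ) : Prop :=
  (∀ i j, i ≠ j → (Finset.univ.filter fun k => A.nu k = 0 ∧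
    (A.phi i).eval (A.rho k) = (A.phi j).eval (A.rho k)).card = d) ∧
  ∀ k, A.nu k = 0 → ∀ i j l, i ≠ j → i ≠ l → j ≠ l →
    (A.phi i).eval (A.rho k) = (A.phi j).eval (A.rho k) →
    (A.phi i).eval (A.rho k) ≠ (A.phi l).eval (A.rho k)

end Arr

end Pool.Agent.Y797.GC
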