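import Pool.Agent.TH577.UA.Loc
set_option autoImplicit false

/-!
Small tori in the complex varieties `∏_e H_e ^ n_e = η` at a point where the `H_e` are products of
monomials and of functions without zeros; exponents `n_e = 0` are allowed.
-/

namespace Pool.Agent.Y797.GC

open Filter Topology

open Pool.Agent.TH826.MK

open Pool.Agent.TH826.SX (circ_ne_zero good_circ lw_circ exists_nice Nice)

open Pool.Agent.TH577.UA hiding exists_points prod_mmon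

section loc

variable {d : ℕ} {q : ℕ} {N : Fin d → ℕ}

variable {ι : Type*} [Fintype ι]

theorem prod_mmon {μ : ι → Fin (d + 1) → ℕ} {nn : ι → ℕ} (hμ : ∑ e, nn e * μ e 0 = q)
    (hN : ∀ k : Fin d, ∑ e, nn e * μ e k.succ = N k) (u : (Fin d → ℂ) × ℂ) :
    ∏ e, mmon (μ e) u ^ nn e = u.2 ^ q * ∏ k, u.1 k ^ N k := by
  unfold mmon
  simp only [mul_pow, ← pow_mul, Finset.prod_mul_distrib, ← Finset.prod_pow]
  rw [Finset.prod_pow_eq_pow_sum, Finset.sum_congr rfl fun e _ => mul_comm (μ e 0) (nn e), hμ,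
    Finset.prod_comm]
  congr 1
  refine Finset.prod_congr rfl fun k _ => ?_
  rw [Finset.prod_pow_eq_pow_sum, Finset.sum_congr rfl fun e _ => mul_comm (μ e k.succ) (nn e),
    hN]

/-- The tori. -/
theorem exists_points {H h : ι → (Fin d → ℂ) × ℂ → ℂ} {μ : ι → Fin (d + 1) → ℕ} {nn : ι → ℕ}
    (hH : ∀ e u, H e u = mmon (μ e) u * h e u) (hc : ∀ e, ContDiff ℂ 2 (h e))
    (h0 : ∀ e, h e 0 ≠ 0) (hμ : ∑ e, nn e * μ e 0 = q) (hq : 0 < q)
    (hN : ∀ k : Fin d, ∑ e, nn e * μ e k.succ = N k) {ε : ℝ} (hε : 0 < ε) :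
    ∃ η0 : ℝ, 0 < η0 ∧ ∀ η : ℂ, η ≠ 0 → ‖η‖ < η0 → Real.log ‖η‖ < 0 ∧
      ∃ X : (Fin d → ℝ) → (Fin d → ℂ) × ℂ, ContDiff ℝ 2 X ∧
        (∀ θ i, X (θ + Pi.single i 1) = X θ) ∧ (∀ θ, ∏ e, H e (X θ) ^ nn e = η) ∧
        (∀ e, Good fun θ => H e (X θ)) ∧
        ∀ e θ, |Real.log ‖H e (X θ)‖ / Real.log ‖η‖ - mrow q N (μ e) 0| ≤ ε ∧
          ∀ j, ‖lw (fun θ => H e (X θ)) j θ -
            2 * Real.pi * Complex.I * mrow q N (μ e) j.succ‖ ≤ ε := by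
  classical
  set Q : (Fin d → ℂ) × ℂ → ℂ := fun u => ∏ e, h e u ^ nn e with hQ
  have hQc : ContDiff ℂ 2 Q := contDiff_prod fun e _ => (hc e).pow _
  have hQ0 : Q 0 ≠ 0 := Finset.prod_ne_zero_iff.2 fun e _ => pow_ne_zero _ (h0 e)
  obtain ⟨R, hRc, hR0, hRQ⟩ := exists_root Q hQc.contDiffAt hQ0 hq
  obtain ⟨Y, hY, hY0, hYQ⟩ := exists_sol R hRc hR0
  set U : (Fin d → ℂ) × ℂ → (Fin d → ℂ) × ℂ := fun ζ => (ζ.1, Y ζ) with hU
  have hU0 : U 0 = 0 := by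
    show ((0 : (Fin d → ℂ) × ℂ).1, Y 0) = 0
    rw [hY0]
    rfl
  have hUc : ContDiffAt ℂ 2 U 0 := contDiffAt_fst.prodMk hY
  have hQUc : ContDiffAt ℂ 2 (fun ζ => R (U ζ)) 0 := by
    refine ContDiffAt.comp (g := R) (0 : (Fin d → ℂ) × ℂ) ?_ hUc
    rw [hU0]
    exact hRc
  have hQU0 : R (U 0) ≠ 0 := by rw [hU0]; exact hR0
  have hRU : ∀ᶠ ζ in 𝓝 (0 : (Fin d → ℂ) × ℂ), R (U ζ) ^ q = Q (U ζ) := by
    have h1 : Tendsto U (𝓝 0) (𝓝 0) := by
      have h2 := hUc.continuousAt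
      unfold ContinuousAt at h2
      rwa [hU0] at h2
    exact h1.eventually hRQ
  set φ : ι → (Fin d → ℂ) × ℂ → ℂ := fun e ζ => (R (U ζ))⁻¹ ^ (μ e 0) * h e (U ζ) with hφ
  have hφ1 : ∀ e, ContDiffAt ℂ 2 (φ e) 0 := fun e =>
    ((hQUc.inv hQU0).pow _).mul (((hc e).contDiffAt).comp (0 : (Fin d → ℂ) × ℂ) hUc)
  have hφ2 : ∀ e, φ e 0 ≠ 0 := fun e => by
    simp only [hφ]
    refine mul_ne_zero (pow_ne_zero _ (inv_ne_zero hQU0)) ?_
    rw [hU0]
    exact h0 e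
  have hφ3 : ∀ᶠ ζ in 𝓝 (0 : (Fin d → ℂ) × ℂ), ∀ e, H e (U ζ) = mmon (μ e) ζ * φ e ζ := by
    filter_upwards [hYQ, hQUc.continuousAt.eventually_ne hQU0] with ζ h1 h2 e
    have h3 : Y ζ = ζ.2 * (R (U ζ))⁻¹ := by
      rw [eq_mul_inv_iff_mul_eq₀ h2]
      exact h1
    rw [hH]
    simp only [hφ]
    have h4 : mmon (μ e) (U ζ) = mmon (μ e) ζ * (R (U ζ))⁻¹ ^ (μ e 0) := by
      unfold mmon
      have h5 : (U ζ).2 = ζ.2 * (R (U ζ))⁻¹ := h3
      have h6 : (U ζ).1 = ζ.1 := rfl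
      rw [h5, h6, mul_pow]
      ring
    rw [h4]
    ring
  choose C hC using fun e => exists_nice (hφ1 e) (hφ2 e)
  have hall := (hY.eventually (by norm_num)).and (hYQ.and
    (hφ3.and ((eventually_all.2 fun e => hC e).and hRU)))
  obtain ⟨δ, hδ, hball⟩ := Metric.eventually_nhds_iff.1 hall
  set C0 : ℝ := ∑ e, |C e| with hC0
  have hC00 : 0 ≤ C0 := Finset.sum_nonneg fun k _ => abs_nonneg _
  have hCle : ∀ e, C e ≤ C0 := fun e =>
    (le_abs_self _).trans (Finset.single_le_sum (f := fun e => |C e|)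
      (fun j _ => abs_nonneg _) (Finset.mem_univ e))
  have hnice : ∀ e, Nice δ C0 (φ e) := by
    intro e ζ hζ
    obtain ⟨-, -, -, h, -⟩ := hball (y := ζ) (by rwa [dist_zero_right])
    obtain ⟨a1, a2, a3, a4⟩ := h e
    exact ⟨a1, a2, a3.trans (hCle e), a4.trans (hCle e)⟩
  set NS : ℝ := ∑ k, (N k : ℝ) with hNS
  have hNS0 : 0 ≤ NS := Finset.sum_nonneg fun k _ => Nat.cast_nonneg _
  have hq0 : (0 : ℝ) < q := by exact_mod_cast hq
  set ρ : ℝ := min (min (δ / 2) 1) (ε / (2 * Real.pi * (C0 + 1) * (q + NS))) with hρdef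
  have hpi := Real.pi_pos
  have hρ : 0 < ρ := lt_min (lt_min (by linarith) one_pos) (by positivity)
  have hρ1 : ρ ≤ 1 := (min_le_left _ _).trans (min_le_right _ _)
  have hρδ : ρ < δ := ((min_le_left _ _).trans (min_le_left _ _)).trans_lt (by linarith)
  have hρε : C0 * (2 * Real.pi * ρ * (q + NS)) ≤ ε := by
    have h1 : ρ ≤ ε / (2 * Real.pi * (C0 + 1) * (q + NS)) := min_le_right _ _
    rw [le_div_iff₀ (by positivity)] at h1
    calc C0 * (2 * Real.pi * ρ * (q + NS)) ≤ (C0 + 1) * (2 * Real.pi * ρ * (q + NS)) :=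
          mul_le_mul_of_nonneg_right (by linarith) (by positivity)
      _ = ρ * (2 * Real.pi * (C0 + 1) * (q + NS)) := by ring
      _ ≤ ε := h1
  set B : ι → ℝ := fun e => (μ e 0 : ℝ) * NS + q * ∑ k : Fin d, (μ e k.succ : ℝ) with hB
  have hB0 : ∀ e, 0 ≤ B e := fun e => add_nonneg (mul_nonneg (Nat.cast_nonneg _) hNS0)
    (mul_nonneg hq0.le (Finset.sum_nonneg fun k _ => Nat.cast_nonneg _))
  set B0 : ℝ := ∑ e, B e with hB0def
  have hB00 : 0 ≤ B0 := Finset.sum_nonneg fun e _ => hB0 e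
  have hBle : ∀ e, B e ≤ B0 := fun e =>
    Finset.single_le_sum (f := B) (fun e _ => hB0 e) (Finset.mem_univ e)
  set M : ℝ := (C0 + B0 * |Real.log ρ|) / ε + 1 with hM
  have hM1 : 1 ≤ M := by
    have : 0 ≤ (C0 + B0 * |Real.log ρ|) / ε := by positivity
    rw [hM]
    linarith
  refine ⟨min ((ρ ^ (∑ k, N k + 1)) ^ q) (Real.exp (-M)), lt_min (by positivity)
    (Real.exp_pos _), fun η' hη0' hη' => ?_⟩
  obtain ⟨η, hηq⟩ := IsAlgClosed.exists_pow_nat_eq η' hq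
  have hη0 : η ≠ 0 := by
    rintro rfl
    rw [zero_pow hq.ne'] at hηq
    exact hη0' hηq.symm
  have hηρ : ‖η‖ ≤ ρ ^ (∑ k, N k + 1) := by
    have h1 : ‖η‖ ^ q ≤ (ρ ^ (∑ k, N k + 1)) ^ q := by
      rw [← norm_pow, hηq]
      exact (hη'.trans_le (min_le_left _ _)).le
    exact le_of_pow_le_pow_left₀ hq.ne' (by positivity) h1
  have hlog : Real.log ‖η'‖ < -M := by
    rw [Real.log_lt_iff_lt_exp (norm_pos_iff.2 hη0')]
    exact hη'.trans_le (min_le_right _ _)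
  have hlog0 : Real.log ‖η'‖ ≠ 0 := by linarith
  have habs : M ≤ |Real.log ‖η'‖| := by
    rw [abs_of_neg (by linarith)]
    linarith
  refine ⟨by linarith, ?_⟩
  have hz : ∀ θ : Fin d → ℝ, ‖zn q N ρ η θ‖ < δ := fun θ =>
    (norm_zn_le hρ hρ1 hq hηρ θ).trans_lt hρδ
  have hb := fun θ : Fin d → ℝ =>
    hball (y := zn q N ρ η θ) (by rw [dist_zero_right]; exact hz θ)
  set X : (Fin d → ℝ) → (Fin d → ℂ) × ℂ := fun θ => U (zn q N ρ η θ) with hX
  have hfac : ∀ e, (fun θ => H e (X θ)) = fun θ => mmon (μ e) (zn q N ρ η θ) *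
      φ e (zn q N ρ η θ) := fun e => funext fun θ => (hb θ).2.2.1 e
  have hg : ∀ e, Good fun θ => φ e (zn q N ρ η θ) := fun e =>
    good_nice hρ hρ1 hq hρδ hη0 hηρ (hnice e)
  refine ⟨X, ?_, fun θ i => ?_, fun θ => ?_, fun e => ?_, fun e θ => ?_⟩
  · rw [contDiff_iff_contDiffAt]
    intro θ
    have h1 : ContDiffAt ℝ 2 (fun ζ : (Fin d → ℂ) × ℂ => (ζ.1, Y ζ)) (zn q N ρ η θ) := by
      refine ContDiffAt.restrict_scalars ℝ (𝕜' := ℂ) ?_
      exact contDiffAt_fst.prodMk (hb θ).1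
    exact h1.comp θ (contDiff_zn hρ hη0).contDiffAt
  · simp only [hX]
    rw [zn_add_single]
  · simp only [hH, mul_pow, Finset.prod_mul_distrib]
    rw [prod_mmon hμ hN]
    have h1 : Y (zn q N ρ η θ) * R (X θ) = (zn q N ρ η θ).2 := (hb θ).2.1
    have h2 : (X θ).2 = Y (zn q N ρ η θ) := rfl
    have h3 : (X θ).1 = (zn q N ρ η θ).1 := rfl
    have h5 : R (X θ) ^ q = Q (X θ) := (hb θ).2.2.2.2
    rw [h2, h3]
    have h4 : ∏ e, h e (X θ) ^ nn e = Q (X θ) := rfl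
    rw [h4, ← h5, mul_right_comm, ← mul_pow, h1]
    have h6 : ∏ k, (zn q N ρ η θ).1 k ^ N k = (∏ k, circ ρ (θ k) ^ N k) ^ q := by
      rw [← Finset.prod_pow]
      refine Finset.prod_congr rfl fun k _ => ?_
      show (circ ρ (θ k) ^ q) ^ N k = _
      rw [← pow_mul, ← pow_mul, mul_comm]
    rw [h6, ← mul_pow]
    have h7 : (zn q N ρ η θ).2 * ∏ k, circ ρ (θ k) ^ N k = η :=
      div_mul_cancel₀ _ ((good_pc (N := N) hρ).ne_zero θ)
    rw [h7, hηq]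
  · rw [hfac e]
    exact (mmon_props hρ hq hη0 (μ e)).1.mul (hg e)
  · have hl := fun j => lw_nice hρ hρ1 hq hρδ hη0 hηρ (hnice e) j θ
    obtain ⟨hm1, hm2, hm3⟩ := mmon_props (N := N) hρ hq hη0 (μ e)
    rw [hηq] at hm3
    have hn := (hnice e) _ (hz θ)
    have hpos : 0 < |Real.log ‖η'‖| := abs_pos.2 hlog0
    have hbound : C0 + B0 * |Real.log ρ| ≤ ε * |Real.log ‖η'‖| := by
      have h1 : (C0 + B0 * |Real.log ρ|) / ε ≤ |Real.log ‖η'‖| := by linarith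
      rw [div_le_iff₀ hε] at h1
      linarith
    refine ⟨?_, fun j => ?_⟩
    · rw [congrFun (hfac e) θ, norm_mul, Real.log_mul (norm_ne_zero_iff.2 (hm1.ne_zero θ))
        (norm_ne_zero_iff.2 hn.2.1)]
      have e' : (Real.log ‖mmon (μ e) (zn q N ρ η θ)‖ + Real.log ‖φ e (zn q N ρ η θ)‖) /
          Real.log ‖η'‖ - mrow q N (μ e) 0 = ((Real.log ‖mmon (μ e) (zn q N ρ η θ)‖ -
            mrow q N (μ e) 0 * Real.log ‖η'‖) + Real.log ‖φ e (zn q N ρ η θ)‖) /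
              Real.log ‖η'‖ := by
        field_simp
        ring
      rw [e', abs_div, div_le_iff₀ hpos]
      refine (abs_add_le _ _).trans ?_
      have h5 := hm3 θ
      have h6 := hn.2.2.1
      have h7 : B e * |Real.log ρ| ≤ B0 * |Real.log ρ| :=
        mul_le_mul_of_nonneg_right (hBle e) (abs_nonneg _)
      have h8 : |Real.log ‖mmon (μ e) (zn q N ρ η θ)‖ - mrow q N (μ e) 0 * Real.log ‖η'‖| ≤
        B e * |Real.log ρ| := h5
      linarith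
    · rw [hfac e, lw_mul hm1 (hg e), hm2, add_sub_cancel_left]
      exact (hl j).trans hρε

end loc

end Pool.Agent.Y797.GC
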