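import Pool.Agent.Y797.GC.Def
import Pool.Agent.Y797.GC.Pts
import Pool.Agent.TH826.SX.Final
import Pool.Agent.TH577.UA.Tor
set_option autoImplicit false

/-!
Loops in the complex points of the curves near the points `(ρ_k, φ_i(ρ_k))`, and the regulators of
the symbols on them.
-/

namespace Pool.Agent.Y797.GC

open Pool.Agent.TH826.MK

open Pool.Agent.TH577.UA (mmon mrow yrow det_yrow)

open Pool.Agent.TH826.SX (pairing_close)

open Polynomial (C X)

section Ev

variable {K : Type*} [Field K] {r p : ℕ} (A : Arr K r p) {lam : K} {σ : K →+* ℂ}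

/-- evaluation of the polynomials at a complex point -/
noncomputable def evP (σ : K →+* ℂ) (P : ℂ × ℂ) : Polynomial (Polynomial K) →+* ℂ :=
  Polynomial.eval₂RingHom (Polynomial.eval₂RingHom σ P.1) P.2

theorem evP_X (P : ℂ × ℂ) : evP σ P X = P.2 := by
  unfold evP
  rw [Polynomial.coe_eval₂RingHom, Polynomial.eval₂_X]

theorem evP_C (P : ℂ × ℂ) (q : Polynomial K) : evP σ P (C q) = q.eval₂ σ P.1 := by
  unfold evP
  rw [Polynomial.coe_eval₂RingHom, Polynomial.eval₂_C, Polynomial.coe_eval₂RingHom]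

theorem evP_ly (P : ℂ × ℂ) (i : Fin (r + 1)) :
    evP σ P (A.ly i) = P.2 - (A.phi i).eval₂ σ P.1 := by
  unfold Arr.ly
  rw [map_sub, evP_X, evP_C]

theorem evP_lx (P : ℂ × ℂ) (k : Fin p) : evP σ P (A.lx k) = P.1 - σ (A.rho k) := by
  unfold Arr.lx
  rw [evP_C, Polynomial.eval₂_sub, Polynomial.eval₂_X, Polynomial.eval₂_C]

/-- the complex points of the open part of the curve -/
def Pt (σ : K →+* ℂ) (lam : K) (P : ℂ × ℂ) : Prop :=
  evP σ P (A.eqn lam) = 0 ∧ evP σ P A.allX ≠ 0

variable {A}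

/-- evaluation of the functions on the curve -/
noncomputable def evC {P : ℂ × ℂ} (h : Pt A σ lam P) : A.CRing lam →+* ℂ :=
  (AdjoinRoot.lift (Polynomial.eval₂RingHom σ P.1) P.2 h.1 : AdjoinRoot (A.eqn lam) →+* ℂ)

theorem evC_mk {P : ℂ × ℂ} (h : Pt A σ lam P) (q : Polynomial (Polynomial K)) :
    evC h (A.mkC lam q) = evP σ P q :=
  AdjoinRoot.lift_mk h.1 q

/-- evaluation of the functions on the open part of the curve -/
noncomputable def evO {P : ℂ × ℂ} (h : Pt A σ lam P) : A.Open lam →+* ℂ :=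
  IsLocalization.Away.lift (A.den lam) (g := evC h)
    (isUnit_iff_ne_zero.2 (by unfold Arr.den; rw [evC_mk]; exact h.2))

theorem evO_alg {P : ℂ × ℂ} (h : Pt A σ lam P) (b : A.CRing lam) :
    evO h (algebraMap (A.CRing lam) (A.Open lam) b) = evC h b :=
  IsLocalization.Away.lift_eq _ _ _

theorem evO_toO {P : ℂ × ℂ} (h : Pt A σ lam P) (q : Polynomial (Polynomial K)) :
    evO h (A.toO lam q) = evP σ P q := by
  unfold Arr.toO
  rw [RingHom.comp_apply, evO_alg, evC_mk]

theorem evO_congr {P Q : ℂ × ℂ} (hP : Pt A σ lam P) (hQ : Pt A σ lam Q) (h : P = Q) :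
    evO hP = evO hQ := by
  subst h
  rfl

theorem contDiff_evP {n : ℕ} {P : (Fin n → ℝ) → ℂ × ℂ} (hc : ContDiff ℝ 2 P)
    (q : Polynomial (Polynomial K)) : ContDiff ℝ 2 fun θ => evP σ (P θ) q := by
  have h1 : ∀ q : Polynomial K, ContDiff ℝ 2 fun θ => q.eval₂ σ (P θ).1 := by
    intro q
    induction q using Polynomial.induction_on' with
    | add a b ha hb => simpa only [Polynomial.eval₂_add] using ha.add hb
    | monomial n a =>
      simp only [Polynomial.eval₂_monomial]
      exact contDiff_const.mul (hc.fst.pow _)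
  induction q using Polynomial.induction_on' with
  | add a b ha hb => simpa only [map_add] using ha.add hb
  | monomial n a =>
    have e : (fun θ => evP σ (P θ) (Polynomial.monomial n a)) =
        fun θ => a.eval₂ σ (P θ).1 * (P θ).2 ^ n := by
      funext θ
      rw [← Polynomial.C_mul_X_pow_eq_monomial, map_mul, map_pow, evP_C, evP_X]
    rw [e]
    exact (h1 a).mul (hc.snd.pow _)

theorem contDiff_evO {n : ℕ} {P : (Fin n → ℝ) → ℂ × ℂ} (hc : ContDiff ℝ 2 P)
    (hP : ∀ θ, Pt A σ lam (P θ)) (b : A.Open lam) : ContDiff ℝ 2 fun θ => evO (hP θ) b := by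
  have hC : ∀ a : A.CRing lam, ContDiff ℝ 2 fun θ => evC (hP θ) a := by
    intro a
    obtain ⟨q, rfl⟩ := A.mkC_surjective lam a
    simp only [evC_mk]
    exact contDiff_evP hc q
  obtain ⟨⟨a, s⟩, hs⟩ := IsLocalization.surj (Submonoid.powers
    (A.den lam)) b
  obtain ⟨n, hn⟩ := s.2
  have hne : ∀ θ, evC (hP θ) (s : A.CRing lam) ≠ 0 := by
    intro θ
    rw [← hn]
    show evC (hP θ) ((A.mkC lam A.allX) ^ n) ≠ 0
    rw [map_pow, evC_mk]
    exact pow_ne_zero _ (hP θ).2
  have e : (fun θ => evO (hP θ) b) = fun θ => evC (hP θ) a * (evC (hP θ) (s : A.CRing lam))⁻¹ := by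
    funext θ
    rw [eq_mul_inv_iff_mul_eq₀ (hne θ), ← evO_alg, ← evO_alg, ← map_mul]
    exact congrArg _ hs
  rw [e]
  exact (hC a).mul ((hC _).inv hne)

/-- a torus in the open part of the curve -/
noncomputable def mkT {n : ℕ} (P : (Fin n → ℝ) → ℂ × ℂ) (hc : ContDiff ℝ 2 P)
    (hp : ∀ θ i, P (θ + Pi.single i 1) = P θ) (hP : ∀ θ, Pt A σ lam (P θ)) :
    Torus (A.Open lam) n where
  e θ := evO (hP θ)
  smooth b := contDiff_evO hc hP b
  periodic θ i := evO_congr _ _ (hp θ i)

end Ev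

section main

variable {K : Type*} [Field K] {r p : ℕ} {A : Arr K r p}

theorem contDiff_eval₂ (σ : K →+* ℂ) (q : Polynomial K) :
    ContDiff ℂ 2 fun x : ℂ => q.eval₂ σ x := by
  induction q using Polynomial.induction_on' with
  | add a b ha hb => simpa only [Polynomial.eval₂_add] using ha.add hb
  | monomial n a =>
    simp only [Polynomial.eval₂_monomial]
    exact contDiff_const.mul (contDiff_id.pow _)

theorem contDiff_evP' (σ : K →+* ℂ) {P : (Fin 1 → ℂ) × ℂ → ℂ × ℂ} (hc : ContDiff ℂ 2 P)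
    (q : Polynomial (Polynomial K)) : ContDiff ℂ 2 fun u => evP σ (P u) q := by
  induction q using Polynomial.induction_on' with
  | add a b ha hb => simpa only [map_add] using ha.add hb
  | monomial n a =>
    have e : (fun θ => evP σ (P θ) (Polynomial.monomial n a)) =
        fun θ => a.eval₂ σ (P θ).1 * (P θ).2 ^ n := by
      funext θ
      rw [← Polynomial.C_mul_X_pow_eq_monomial, map_mul, map_pow, evP_C, evP_X]
    rw [e]
    exact ((contDiff_eval₂ σ a).comp hc.fst).mul (hc.snd.pow _)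

theorem mmon_one (μ : Fin 2 → ℕ) (u : (Fin 1 → ℂ) × ℂ) :
    mmon μ u = u.2 ^ μ 0 * u.1 0 ^ μ 1 := by
  unfold mmon
  rw [Fin.prod_univ_one]
  rfl

/-- the loops near the point `(ρ_k, φ_i(ρ_k))` -/
theorem exists_torus (σ : K →+* ℂ) (hphi : Function.Injective A.phi)
    (hrho : Function.Injective A.rho)
    (hg : ∀ i k, (A.g.eval (A.phi i)).eval (A.rho k) ≠ 0) (i0 : Fin (r + 1)) (k0 : Fin p) :
    ∃ D : ℝ, D ≠ 0 ∧ ∀ ε : ℝ, 0 < ε →
    ∃ Λ : ℝ, 1 < Λ ∧ ∀ lam : K, Λ ≤ ‖σ lam‖ → ∃ Γ : Torus (A.Open lam) 1,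
      (∀ θ x, Γ.e θ (A.toO lam (C (C x))) = σ x) ∧
      ∀ i k, |Γ.reg (symb ![A.uy lam i, A.ux lam k]) / (-Real.log ‖σ lam‖) -
          (if i = i0 ∧ k = k0 then D else 0)| ≤ ε := by
  classical
  -- the factorizations of the differences
  have hex : ∀ j, ∃ (a : ℕ) (ψ : Polynomial K), j ≠ i0 →
      A.phi i0 - A.phi j = (X - C (A.rho k0)) ^ a * ψ ∧ ψ.eval (A.rho k0) ≠ 0 := by
    intro j
    by_cases hj : j = i0
    · exact ⟨0, 0, fun h => absurd hj h⟩
    · have hne : A.phi i0 - A.phi j ≠ 0 := sub_ne_zero.2 fun h => hj (hphi h).symm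
      obtain ⟨ψ, h1, h2⟩ := Polynomial.exists_eq_pow_rootMultiplicity_mul_and_not_dvd
        (A.phi i0 - A.phi j) hne (A.rho k0)
      exact ⟨_, ψ, fun _ => ⟨h1, fun h => h2 (Polynomial.dvd_iff_isRoot.2 h)⟩⟩
  choose a ψ haψ using hex
  set N : ℕ := ∑ j, a j + 1 with hN
  have haN : ∀ j, a j < N := fun j => by
    have := Finset.single_le_sum (f := a) (fun _ _ => Nat.zero_le _) (Finset.mem_univ j)
    omega
  set μy : Fin (r + 1) → Fin 2 → ℕ := fun j => if j = i0 then ![1, N] else ![0, a j] with hμy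
  set μx : Fin p → Fin 2 → ℕ := fun k => if k = k0 then ![0, 1] else ![0, 0] with hμx
  -- the chart
  set Q : (Fin 1 → ℂ) × ℂ → ℂ × ℂ := fun u => (σ (A.rho k0) + u.1 0,
    (A.phi i0).eval₂ σ (σ (A.rho k0) + u.1 0) + u.2 * u.1 0 ^ N) with hQ
  have ht : ContDiff ℂ 2 fun u : (Fin 1 → ℂ) × ℂ => u.1 0 :=
    (contDiff_apply ℂ ℂ (0 : Fin 1)).comp contDiff_fst
  have hx : ContDiff ℂ 2 fun u : (Fin 1 → ℂ) × ℂ => σ (A.rho k0) + u.1 0 :=
    contDiff_const.add ht
  have hQc : ContDiff ℂ 2 Q := hx.prodMk (((contDiff_eval₂ σ _).comp hx).add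
    (contDiff_snd.mul (ht.pow _)))
  have hQ0 : Q 0 = (σ (A.rho k0), σ ((A.phi i0).eval (A.rho k0))) := by
    have h1 : ((0 : (Fin 1 → ℂ) × ℂ)).1 0 = 0 := rfl
    have h2 : ((0 : (Fin 1 → ℂ) × ℂ)).2 = 0 := rfl
    simp only [hQ, h1, h2, add_zero, zero_mul]
    rw [Polynomial.eval₂_at_apply]
  -- the factors
  set H : Option (Fin (r + 1) ⊕ Fin p) → (Fin 1 → ℂ) × ℂ → ℂ := fun e u => match e with
    | none => evP σ (Q u) A.g
    | some (Sum.inl i) => evP σ (Q u) (A.ly i)
    | some (Sum.inr k) => evP σ (Q u) (A.lx k) with hH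
  set h : Option (Fin (r + 1) ⊕ Fin p) → (Fin 1 → ℂ) × ℂ → ℂ := fun e u => match e with
    | none => evP σ (Q u) A.g
    | some (Sum.inl i) => if i = i0 then 1 else
        (ψ i).eval₂ σ (σ (A.rho k0) + u.1 0) + u.2 * u.1 0 ^ (N - a i)
    | some (Sum.inr k) => if k = k0 then 1 else σ (A.rho k0) + u.1 0 - σ (A.rho k) with hh
  set μ : Option (Fin (r + 1) ⊕ Fin p) → Fin 2 → ℕ := fun e => match e with
    | none => ![0, 0]
    | some (Sum.inl i) => μy i
    | some (Sum.inr k) => μx k with hμ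
  set nn : Option (Fin (r + 1) ⊕ Fin p) → ℕ := fun e => match e with
    | none => 1
    | some (Sum.inl i) => A.w i + 1
    | some (Sum.inr k) => A.nu k with hnn
  set q : ℕ := A.w i0 + 1 with hq
  have hq0 : 0 < q := Nat.succ_pos _
  set NN : Fin 1 → ℕ := fun k => ∑ e, nn e * μ e k.succ with hNN
  have hfac : ∀ e u, H e u = mmon (μ e) u * h e u := by
    intro e u
    rw [mmon_one]
    match e with
    | none =>
      show evP σ (Q u) A.g = u.2 ^ 0 * u.1 0 ^ 0 * evP σ (Q u) A.g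
      rw [pow_zero, pow_zero, one_mul, one_mul]
    | some (Sum.inl i) =>
      show evP σ (Q u) (A.ly i) = u.2 ^ (μy i 0) * u.1 0 ^ (μy i 1) * (if i = i0 then 1 else
        (ψ i).eval₂ σ (σ (A.rho k0) + u.1 0) + u.2 * u.1 0 ^ (N - a i))
      rw [evP_ly]
      by_cases hi : i = i0
      · simp only [hμy, hi, if_true, hQ]
        show _ = u.2 ^ 1 * u.1 0 ^ N * 1
        ring
      · simp only [hμy, if_neg hi, hQ]
        show _ = u.2 ^ 0 * u.1 0 ^ (a i) * _
        have h1 : (A.phi i).eval₂ σ (σ (A.rho k0) + u.1 0) =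
            (A.phi i0).eval₂ σ (σ (A.rho k0) + u.1 0) -
              u.1 0 ^ a i * (ψ i).eval₂ σ (σ (A.rho k0) + u.1 0) := by
          have h2 := congrArg (Polynomial.eval₂ σ (σ (A.rho k0) + u.1 0)) (haψ i hi).1
          rw [Polynomial.eval₂_sub, Polynomial.eval₂_mul, Polynomial.eval₂_pow,
            Polynomial.eval₂_sub, Polynomial.eval₂_X, Polynomial.eval₂_C, add_sub_cancel_left] at h2
          rw [← h2]
          ring
        have h3 : u.1 0 ^ N = u.1 0 ^ a i * u.1 0 ^ (N - a i) := by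
          rw [← pow_add]
          congr 1
          have := haN i
          omega
        rw [h1, h3]
        ring
    | some (Sum.inr k) =>
      show evP σ (Q u) (A.lx k) = u.2 ^ (μx k 0) * u.1 0 ^ (μx k 1) * (if k = k0 then 1 else
        σ (A.rho k0) + u.1 0 - σ (A.rho k))
      rw [evP_lx]
      by_cases hk : k = k0
      · simp only [hμx, hk, if_true, hQ]
        show _ = u.2 ^ 0 * u.1 0 ^ 1 * 1
        ring
      · simp only [hμx, if_neg hk, hQ]
        show _ = u.2 ^ 0 * u.1 0 ^ 0 * _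
        ring
  have hcd : ∀ e, ContDiff ℂ 2 (h e) := by
    intro e
    match e with
    | none => exact contDiff_evP' σ hQc _
    | some (Sum.inl i) =>
      show ContDiff ℂ 2 fun u : (Fin 1 → ℂ) × ℂ => if i = i0 then (1 : ℂ) else
        (ψ i).eval₂ σ (σ (A.rho k0) + u.1 0) + u.2 * u.1 0 ^ (N - a i)
      by_cases hi : i = i0
      · simp only [if_pos hi]
        exact contDiff_const
      · simp only [if_neg hi]
        exact ((contDiff_eval₂ σ _).comp hx).add (contDiff_snd.mul (ht.pow _))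
    | some (Sum.inr k) =>
      show ContDiff ℂ 2 fun u : (Fin 1 → ℂ) × ℂ => if k = k0 then (1 : ℂ) else
        σ (A.rho k0) + u.1 0 - σ (A.rho k)
      by_cases hk : k = k0
      · simp only [if_pos hk]
        exact contDiff_const
      · simp only [if_neg hk]
        exact hx.sub contDiff_const
  have hne : ∀ e, h e 0 ≠ 0 := by
    have h1 : ((0 : (Fin 1 → ℂ) × ℂ)).1 0 = 0 := rfl
    have h2 : ((0 : (Fin 1 → ℂ) × ℂ)).2 = 0 := rfl
    intro e
    match e with
    | none =>
      show evP σ (Q 0) A.g ≠ 0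
      rw [hQ0]
      have h3 : evP σ (σ (A.rho k0), σ ((A.phi i0).eval (A.rho k0))) A.g =
          σ ((A.g.eval (A.phi i0)).eval (A.rho k0)) := by
        have h4 : (evP σ (σ (A.rho k0), σ ((A.phi i0).eval (A.rho k0)))) =
            (σ.comp (Polynomial.evalRingHom (A.rho k0))).comp
              (Polynomial.evalRingHom (A.phi i0)) := by
          refine Polynomial.ringHom_ext (fun b => ?_) ?_
          · rw [evP_C, RingHom.comp_apply, RingHom.comp_apply, Polynomial.coe_evalRingHom,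
              Polynomial.coe_evalRingHom, Polynomial.eval_C]
            exact Polynomial.eval₂_at_apply σ _
          · rw [evP_X, RingHom.comp_apply, RingHom.comp_apply, Polynomial.coe_evalRingHom,
              Polynomial.coe_evalRingHom, Polynomial.eval_X]
        rw [h4]
        rfl
      rw [h3]
      exact (map_ne_zero σ).2 (hg i0 k0)
    | some (Sum.inl i) =>
      show (if i = i0 then (1 : ℂ) else (ψ i).eval₂ σ (σ (A.rho k0) +
        ((0 : (Fin 1 → ℂ) × ℂ)).1 0) + ((0 : (Fin 1 → ℂ) × ℂ)).2 *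
          ((0 : (Fin 1 → ℂ) × ℂ)).1 0 ^ (N - a i)) ≠ 0
      by_cases hi : i = i0
      · rw [if_pos hi]
        exact one_ne_zero
      · rw [if_neg hi, h1, h2, add_zero, zero_mul, add_zero, Polynomial.eval₂_at_apply]
        exact (map_ne_zero σ).2 (haψ i hi).2
    | some (Sum.inr k) =>
      show (if k = k0 then (1 : ℂ) else σ (A.rho k0) + ((0 : (Fin 1 → ℂ) × ℂ)).1 0 -
        σ (A.rho k)) ≠ 0
      by_cases hk : k = k0
      · rw [if_pos hk]
        exact one_ne_zero
      · rw [if_neg hk, h1, add_zero, ← map_sub]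
        exact (map_ne_zero σ).2 (sub_ne_zero.2 fun hh => hk (hrho hh).symm)
  have hsum : ∑ e, nn e * μ e 0 = q := by
    rw [Fintype.sum_option, Fintype.sum_sum_type]
    show 1 * 0 + (∑ i, (A.w i + 1) * μy i 0 + ∑ k, A.nu k * μx k 0) = q
    have e1 : ∀ i, (A.w i + 1) * μy i 0 = if i = i0 then q else 0 := by
      intro i
      by_cases hi : i = i0
      · simp only [hμy, hi, if_true]
        show (A.w i0 + 1) * 1 = q
        rw [mul_one]
      · simp only [hμy, if_neg hi]
        show (A.w i + 1) * 0 = 0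
        rw [mul_zero]
    have e2 : ∀ k, A.nu k * μx k 0 = 0 := by
      intro k
      by_cases hk : k = k0
      · simp only [hμx, hk, if_true]
        show A.nu k0 * 0 = 0
        rw [mul_zero]
      · simp only [hμx, if_neg hk]
        show A.nu k * 0 = 0
        rw [mul_zero]
    simp only [e1, e2]
    simp
  have hpi := Real.pi_pos
  have hdy := det_yrow hq0 NN
  refine ⟨(2 * Real.pi) ^ 1 * (Matrix.of (yrow q NN)).det, mul_ne_zero
    (pow_ne_zero _ (by positivity)) hdy, fun ε hε => ?_⟩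
  choose δ hδ hclose using fun ik : Fin (r + 1) × Fin p =>
    pairing_close (Matrix.of ![mrow q NN (μy ik.1), mrow q NN (μx ik.2)]) hε
  obtain ⟨m0, -, hm0⟩ := Finset.exists_min_image Finset.univ δ
    ⟨(i0, k0), Finset.mem_univ _⟩
  set δ0 : ℝ := δ m0 / 2 with hδ0
  have hδ0pos : 0 < δ0 := by
    have := hδ m0
    rw [hδ0]
    linarith
  have hδle : ∀ ik, δ0 < δ ik := by
    intro ik
    have h1 := hm0 ik (Finset.mem_univ ik)
    have h2 := hδ m0
    rw [hδ0]
    linarith
  obtain ⟨η0, hη0, hX⟩ := exists_points (q := q) (N := NN) hfac hcd hne hsum hq0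
    (fun k => rfl) hδ0pos
  have hinvpos : 0 < 1 / η0 := by positivity
  refine ⟨1 / η0 + 2, by linarith, fun lam hlam => ?_⟩
  have hln : 0 < ‖σ lam‖ := by linarith
  have hl0 : σ lam ≠ 0 := norm_pos_iff.1 hln
  have hη : ‖(σ lam)⁻¹‖ < η0 := by
    rw [norm_inv, inv_lt_comm₀ hln hη0, ← one_div]
    linarith
  obtain ⟨hlog, U, hUc, hUp, hUe, hUg, hUest⟩ := hX _ (inv_ne_zero hl0) hη
  have hlogeq : Real.log ‖(σ lam)⁻¹‖ = -Real.log ‖σ lam‖ := by rw [norm_inv, Real.log_inv]
  rw [hlogeq] at hlog hUest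
  set P : (Fin 1 → ℝ) → ℂ × ℂ := fun θ => Q (U θ) with hP
  have hPc : ContDiff ℝ 2 P := (hQc.restrict_scalars ℝ).comp hUc
  have hPp : ∀ θ i, P (θ + Pi.single i 1) = P θ := fun θ i => by
    simp only [hP, hUp]
  have hPt : ∀ θ, Pt A σ lam (P θ) := fun θ => by
    refine ⟨?_, ?_⟩
    · have h1 := hUe θ
      rw [Fintype.prod_option, Fintype.prod_sum_type] at h1
      have h2 : evP σ (P θ) A.g ^ 1 * ((∏ i, evP σ (P θ) (A.ly i) ^ (A.w i + 1)) *
          ∏ k, evP σ (P θ) (A.lx k) ^ A.nu k) = (σ lam)⁻¹ := h1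
      rw [Arr.eqn_def, map_sub, map_mul, map_mul, map_mul, map_prod, map_prod, map_one]
      simp only [map_pow]
      rw [pow_one] at h2
      rw [h2, evP_C, Polynomial.eval₂_C, mul_inv_cancel₀ hl0, sub_self]
    · unfold Arr.allX
      rw [map_prod]
      exact Finset.prod_ne_zero_iff.2 fun k _ => (hUg (some (Sum.inr k))).ne_zero θ
  set Γ := mkT P hPc hPp hPt with hΓ
  have hfy : ∀ i, Γ.fn (A.uy lam i : A.Open lam) = fun θ => H (some (Sum.inl i)) (U θ) := by
    intro i
    funext θ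
    exact evO_toO (hPt θ) (A.ly i)
  have hfx : ∀ k, Γ.fn (A.ux lam k : A.Open lam) = fun θ => H (some (Sum.inr k)) (U θ) := by
    intro k
    funext θ
    exact evO_toO (hPt θ) (A.lx k)
  refine ⟨Γ, fun θ x => ?_, fun i k => ?_⟩
  · refine (evO_toO (hPt θ) _).trans ?_
    rw [evP_C, Polynomial.eval₂_C]
  have hdet : (Matrix.of ![mrow q NN (μy i), mrow q NN (μx k)]).det =
      (if i = i0 ∧ k = k0 then 1 else 0) * (Matrix.of (yrow q NN)).det := by
    have h1 : (Matrix.of ![mrow q NN (μy i), mrow q NN (μx k)]) =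
        (Matrix.of ![fun j => (μy i j : ℝ), fun j => (μx k j : ℝ)]) *
          Matrix.of (yrow q NN) := by
      ext l j
      rw [Matrix.mul_apply]
      fin_cases l <;> rfl
    rw [h1, Matrix.det_mul]
    congr 1
    rw [Matrix.det_fin_two]
    show (μy i 0 : ℝ) * (μx k 1 : ℝ) - (μy i 1 : ℝ) * (μx k 0 : ℝ) = _
    have e1 : μy i 0 = if i = i0 then 1 else 0 := by
      by_cases hi : i = i0
      · simp only [hμy, hi, if_true]
        rfl
      · simp only [hμy, if_neg hi]
        rfl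
    have e2 : μx k 1 = if k = k0 then 1 else 0 := by
      by_cases hk : k = k0
      · simp only [hμx, hk, if_true]
        rfl
      · simp only [hμx, if_neg hk]
        rfl
    have e3 : μx k 0 = 0 := by
      by_cases hk : k = k0
      · simp only [hμx, hk, if_true]
        rfl
      · simp only [hμx, if_neg hk]
        rfl
    rw [e1, e2, e3]
    by_cases hi : i = i0
    · by_cases hk : k = k0
      · simp [hi, hk]
      · simp [hi, hk]
    · simp [hi]
  have hgoal := hclose (i, k) (fun l => Γ.fn (![A.uy lam i, A.ux lam k] l : A.Open lam))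
    (-Real.log ‖σ lam‖) hlog.ne (fun l => Γ.good _) (fun l θ => ?_) (fun l j θ => ?_)
  · rw [Torus.reg_symb]
    show |pairing (fun l => Γ.fn (![A.uy lam i, A.ux lam k] l : A.Open lam)) /
      (-Real.log ‖σ lam‖) - _| ≤ ε
    rw [hdet] at hgoal
    refine le_trans (le_of_eq ?_) hgoal
    congr 2
    split_ifs <;> ring
  · refine lt_of_le_of_lt ?_ (hδle (i, k))
    fin_cases l
    · show |Real.log ‖Γ.fn (A.uy lam i : A.Open lam) θ‖ / (-Real.log ‖σ lam‖) -
        mrow q NN (μy i) 0| ≤ δ0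
      rw [hfy]
      exact (hUest (some (Sum.inl i)) θ).1
    · show |Real.log ‖Γ.fn (A.ux lam k : A.Open lam) θ‖ / (-Real.log ‖σ lam‖) -
        mrow q NN (μx k) 0| ≤ δ0
      rw [hfx]
      exact (hUest (some (Sum.inr k)) θ).1
  · refine lt_of_le_of_lt ?_ (hδle (i, k))
    fin_cases l
    · show ‖lw (Γ.fn (A.uy lam i : A.Open lam)) j θ - 2 * Real.pi * Complex.I *
        mrow q NN (μy i) j.succ‖ ≤ δ0
      rw [hfy]
      exact (hUest (some (Sum.inl i)) θ).2 j
    · show ‖lw (Γ.fn (A.ux lam k : A.Open lam)) j θ - 2 * Real.pi * Complex.I *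
        mrow q NN (μx k) j.succ‖ ≤ δ0
      rw [hfx]
      exact (hUest (some (Sum.inr k)) θ).2 j

end main

end Pool.Agent.Y797.GC
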