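import Pool.Agent.Y797.GC.Sard
import Pool.Agent.Y797.GC.Tor
set_option autoImplicit false

/-!
The curves are smooth for large `λ`.
-/

namespace Pool.Agent.Y797.GC

open Polynomial (C X)

section gen

theorem hasDerivAt_eval {ι : Type*} [DecidableEq ι] (Q : MvPolynomial ι ℂ) (z : ι → ℂ) (i : ι) :
    HasDerivAt (fun t => MvPolynomial.eval (Function.update z i t) Q)
      (MvPolynomial.eval z (MvPolynomial.pderiv i Q)) (z i) := by
  induction Q using MvPolynomial.induction_on with
  | C a =>
    simp only [MvPolynomial.eval_C, MvPolynomial.pderiv_C, map_zero]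
    exact hasDerivAt_const _ _
  | add a b ha hb =>
    simp only [map_add]
    exact ha.add hb
  | mul_X a j ha =>
    simp only [map_mul, MvPolynomial.eval_X]
    have h1 : HasDerivAt (fun t => (Function.update z i t) j)
        (MvPolynomial.eval z (MvPolynomial.pderiv i (MvPolynomial.X j : MvPolynomial ι ℂ)))
        (z i) := by
      by_cases hj : j = i
      · subst hj
        simp only [Function.update_self, MvPolynomial.pderiv_X_self, map_one]
        exact hasDerivAt_id _
      · simp only [Function.update_of_ne hj, MvPolynomial.pderiv_X_of_ne hj, map_zero]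
        exact hasDerivAt_const _ _
    have h2 := ha.mul h1
    rw [Function.update_eq_self] at h2
    refine h2.congr_deriv ?_
    rw [Derivation.leibniz]
    simp only [smul_eq_mul, map_add, map_mul, MvPolynomial.eval_X]
    ring

end gen

section main

variable {K : Type*} [Field K] {r p : ℕ} (A : Arr K r p)

/-- the polynomials as polynomials in two complex variables -/
noncomputable def toM (σ : K →+* ℂ) : Polynomial (Polynomial K) →+* MvPolynomial (Fin 2) ℂ :=
  Polynomial.eval₂RingHom (Polynomial.eval₂RingHom ((MvPolynomial.C).comp σ)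
    (MvPolynomial.X 0)) (MvPolynomial.X 1)

theorem eval_toM (σ : K →+* ℂ) (z : Fin 2 → ℂ) (q : Polynomial (Polynomial K)) :
    MvPolynomial.eval z (toM σ q) = evP σ (z 0, z 1) q := by
  have h : (MvPolynomial.eval z).comp (toM σ) = evP σ (z 0, z 1) := by
    refine Polynomial.ringHom_ext' ?_ ?_
    · refine Polynomial.ringHom_ext' ?_ ?_
      · ext a
        simp only [RingHom.comp_apply, toM, evP, Polynomial.coe_eval₂RingHom,
          Polynomial.eval₂_C, MvPolynomial.eval_C]
      · simp only [RingHom.comp_apply, toM, evP, Polynomial.coe_eval₂RingHom,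
          Polynomial.eval₂_C, Polynomial.eval₂_X, MvPolynomial.eval_X]
    · simp only [RingHom.comp_apply, toM, evP, Polynomial.coe_eval₂RingHom,
        Polynomial.eval₂_X, MvPolynomial.eval_X]
  exact congrArg (fun G : Polynomial (Polynomial K) →+* ℂ => G q) h

theorem exists_smooth (σ : K →+* ℂ) :
    ∃ Λ : ℝ, 1 < Λ ∧ ∀ lam : K, Λ ≤ ‖σ lam‖ → ∀ x y : ℂ, evP σ (x, y) (A.eqn lam) = 0 →
      deriv (fun t => evP σ (t, y) (A.eqn lam)) x ≠ 0 ∨
      deriv (fun t => evP σ (x, t) (A.eqn lam)) y ≠ 0 := by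
  obtain ⟨ε, hε, h⟩ := exists_level (toM σ
    (A.g * ((∏ i, A.ly i ^ (A.w i + 1)) * ∏ k, A.lx k ^ A.nu k)))
  set P := A.g * ((∏ i, A.ly i ^ (A.w i + 1)) * ∏ k, A.lx k ^ A.nu k) with hP
  have hinv : 0 < 1 / ε := by positivity
  refine ⟨1 / ε + 2, by linarith, fun lam hlam x y hxy => ?_⟩
  have hln : 0 < ‖σ lam‖ := by linarith
  have hl0 : σ lam ≠ 0 := norm_pos_iff.1 hln
  have hη : ‖(σ lam)⁻¹‖ < ε := by
    rw [norm_inv, inv_lt_comm₀ hln hε, ← one_div]
    linarith
  have heq : ∀ Q : ℂ × ℂ, evP σ Q (A.eqn lam) = σ lam * evP σ Q P - 1 := by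
    intro Q
    rw [Arr.eqn_def, map_sub, map_one, map_mul, evP_C, Polynomial.eval₂_C]
  rw [heq] at hxy
  have h1 : MvPolynomial.eval ![x, y] (toM σ P) = (σ lam)⁻¹ := by
    rw [eval_toM]
    have h2 : evP σ (x, y) P = (σ lam)⁻¹ := eq_inv_of_mul_eq_one_right (sub_eq_zero.1 hxy)
    exact h2
  obtain ⟨i, hi⟩ := h _ (inv_ne_zero hl0) hη ![x, y] h1
  simp only [heq]
  have hd : ∀ i : Fin 2, HasDerivAt (fun t => σ lam *
      MvPolynomial.eval (Function.update ![x, y] i t) (toM σ P) - 1)
      (σ lam * MvPolynomial.eval ![x, y] (MvPolynomial.pderiv i (toM σ P))) (![x, y] i) :=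
    fun i => ((hasDerivAt_eval (toM σ P) ![x, y] i).const_mul (σ lam)).sub_const 1
  have h0 := hd 0
  have h1' := hd 1
  simp only [eval_toM] at h0 h1'
  have e0 : (fun t => σ lam * evP σ (Function.update ![x, y] 0 t 0,
      Function.update ![x, y] 0 t 1) P - 1) = fun t => σ lam * evP σ (t, y) P - 1 := by
    funext t
    rfl
  have e1 : (fun t => σ lam * evP σ (Function.update ![x, y] 1 t 0,
      Function.update ![x, y] 1 t 1) P - 1) = fun t => σ lam * evP σ (x, t) P - 1 := by
    funext t
    rfl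
  rw [e0] at h0
  rw [e1] at h1'
  have f0 := h0.deriv
  have f1 := h1'.deriv
  have g0 : (![x, y] : Fin 2 → ℂ) 0 = x := rfl
  have g1 : (![x, y] : Fin 2 → ℂ) 1 = y := rfl
  rw [g0] at f0
  rw [g1] at f1
  rw [f0, f1]
  fin_cases i
  · exact Or.inl (mul_ne_zero hl0 hi)
  · exact Or.inr (mul_ne_zero hl0 hi)

end main

end Pool.Agent.Y797.GC
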