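import Pool.Agent.Y797.GC.Def
import Pool.Agent.TH826.MK.Variety
set_option autoImplicit false

/-!
The admissible combinations of the symbols `{y - φ_i(x), x - ρ_k}` are unramified.
-/

namespace Pool.Agent.Y797.GC

open scoped WithZero

open Pool.Agent.TH826.MK (KQ symb Unramified unitPart symb_update_mul mem_unitPart_of_oneUnit')

open Polynomial (C X)

section gen

theorem sum_mem_of_class {M : Type*} [AddCommGroup M] [Module ℚ M] (U : Submodule ℚ M)
    {ι α : Type*} [Fintype ι] [DecidableEq α] (κ : ι → α) (q : ι → M) (n : ι → ℚ)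
    (h1 : ∀ i j, κ i = κ j → q i - q j ∈ U)
    (h2 : ∀ a, ∑ i ∈ Finset.univ.filter (fun i => κ i = a), n i = 0) :
    ∑ i, n i • q i ∈ U := by
  classical
  rw [← Finset.sum_fiberwise_of_maps_to (s := Finset.univ) (t := Finset.univ.image κ) (g := κ)
    fun i hi => Finset.mem_image_of_mem κ hi]
  refine Submodule.sum_mem _ fun a ha => ?_
  obtain ⟨j, -, hj⟩ := Finset.mem_image.1 ha
  have e : ∑ i ∈ Finset.univ.filter (fun i => κ i = a), n i • q i =
      ∑ i ∈ Finset.univ.filter (fun i => κ i = a), n i • (q i - q j) := by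
    simp only [smul_sub]
    rw [Finset.sum_sub_distrib, ← Finset.sum_smul, h2 a, zero_smul, sub_zero]
  rw [e]
  refine Submodule.sum_mem _ fun i hi => U.smul_mem _ (h1 i j ?_)
  rw [(Finset.mem_filter.1 hi).2, hj]

variable {B : Type*} [CommRing B]

theorem upd0 (x y z : Bˣ) : Function.update ![x, y] 0 z = ![z, y] := by
  funext i
  fin_cases i <;> simp

theorem upd1 (x y z : Bˣ) : Function.update ![x, y] 1 z = ![x, z] := by
  funext i
  fin_cases i <;> simp

theorem symb_sub_left (x y t : Bˣ) : symb ![x, t] - symb ![y, t] = symb ![x / y, t] := by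
  have h := symb_update_mul ![x, t] 0 (x / y) y
  rw [upd0, upd0, upd0, div_mul_cancel] at h
  rw [h, add_sub_cancel_right]

theorem symb_sub_right (t x y : Bˣ) : symb ![t, x] - symb ![t, y] = symb ![t, x / y] := by
  have h := symb_update_mul ![t, x] 1 (x / y) y
  rw [upd1, upd1, upd1, div_mul_cancel] at h
  rw [h, add_sub_cancel_right]

variable {L : Type*} [Field L] (v : Valuation L ℤᵐ⁰)

theorem val_div_sub_one {a b : L} (hb : b ≠ 0) (h : v (a - b) < v b) : v (a / b - 1) < 1 := by
  have h1 : a / b - 1 = (a - b) / b := by field_simp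
  rw [h1, map_div₀]
  exact (div_lt_one₀ (zero_lt_iff.2 ((Valuation.ne_zero_iff v).2 hb))).2 h

theorem val_pow_sub {x y : L} (hx : v x ≤ 1) (hy : v y ≤ 1) (n : ℕ) :
    v (x ^ n - y ^ n) ≤ v (x - y) := by
  induction n with
  | zero => simp
  | succ n ih =>
    have e : x ^ (n + 1) - y ^ (n + 1) = x ^ n * (x - y) + y * (x ^ n - y ^ n) := by ring
    rw [e]
    refine (v.map_add _ _).trans (max_le ?_ ?_)
    · rw [map_mul, map_pow]
      exact (mul_le_mul' (pow_le_one' hx n) le_rfl).trans_eq (one_mul _)
    · rw [map_mul]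
      exact (mul_le_mul' hy ih).trans_eq (one_mul _)

variable {K : Type*} [Field K]

theorem val_eval₂_sub (c : K →+* L) {x y : L} (hx : v x ≤ 1) (hy : v y ≤ 1)
    {q : Polynomial K} (hq : ∀ j, v (c (q.coeff j)) ≤ 1) :
    v (q.eval₂ c x - q.eval₂ c y) ≤ v (x - y) := by
  rw [Polynomial.eval₂_eq_sum, Polynomial.eval₂_eq_sum, Polynomial.sum, Polynomial.sum,
    ← Finset.sum_sub_distrib]
  refine Valuation.map_sum_le v fun j _ => ?_
  rw [← mul_sub, map_mul]
  exact (mul_le_mul' (hq j) (val_pow_sub v hx hy j)).trans_eq (one_mul _)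

theorem val_eval₂_le (c : K →+* L) {x : L} (hx : v x ≤ 1)
    {q : Polynomial K} (hq : ∀ j, v (c (q.coeff j)) ≤ 1) :
    v (q.eval₂ c x) ≤ 1 := by
  rw [Polynomial.eval₂_eq_sum, Polynomial.sum]
  refine Valuation.map_sum_le v fun j _ => ?_
  rw [map_mul, map_pow]
  exact (mul_le_mul' (hq j) (pow_le_one' hx j)).trans_eq (one_mul _)

end gen

section unr

variable {K : Type*} [Field K] {r p : ℕ} {A : Arr K r p} {lam : K}

variable {L : Type*} [Field L] (F : Polynomial (Polynomial K) →+* L)

/-- the constants -/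
noncomputable def cF : K →+* L := F.comp ((C : Polynomial K →+* _).comp C)

theorem F_C (q : Polynomial K) : F (C q) = q.eval₂ (cF F) (F (C X)) := by
  have h : (F.comp (C : Polynomial K →+* _)) = Polynomial.eval₂RingHom (cF F) (F (C X)) := by
    refine Polynomial.ringHom_ext (fun a => ?_) ?_
    · rw [Polynomial.coe_eval₂RingHom, Polynomial.eval₂_C]
      rfl
    · rw [Polynomial.coe_eval₂RingHom, Polynomial.eval₂_X]
      rfl
  exact congrArg (fun G : Polynomial K →+* L => G q) h

theorem F_eq (q : Polynomial (Polynomial K)) :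
    F q = q.eval₂ (F.comp (C : Polynomial K →+* _)) (F X) := by
  have h : F = Polynomial.eval₂RingHom (F.comp (C : Polynomial K →+* _)) (F X) := by
    refine Polynomial.ringHom_ext (fun a => ?_) ?_
    · rw [Polynomial.coe_eval₂RingHom, Polynomial.eval₂_C]
      rfl
    · rw [Polynomial.coe_eval₂RingHom, Polynomial.eval₂_X]
  exact congrArg (fun G : Polynomial (Polynomial K) →+* L => G q) h

variable (v : Valuation L ℤᵐ⁰)

theorem val_F_le (hx : v (F (C X)) ≤ 1) (hy : v (F X) ≤ 1)
    {q : Polynomial (Polynomial K)} (hq : ∀ i j, IsIntegral ℤ ((q.coeff i).coeff j)) :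
    v (F q) ≤ 1 := by
  have hci : ∀ x : K, IsIntegral ℤ x → v (cF F x) ≤ 1 := fun x hx =>
    Pool.Agent.TH826.MK.val_le_one_of_integral v (map_isIntegral_int _ hx)
  rw [F_eq, Polynomial.eval₂_eq_sum, Polynomial.sum]
  refine Valuation.map_sum_le v fun j _ => ?_
  rw [map_mul, map_pow, RingHom.comp_apply, F_C]
  exact (mul_le_mul' (val_eval₂_le v _ hx fun i => hci _ (hq j i))
    (pow_le_one' hy j)).trans_eq (one_mul _)

end unr

section main

variable {K : Type*} [Field K] {r p : ℕ} {A : Arr K r p} {lam : K}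

variable {L : Type*} [Field L] (f : A.Open lam →+* L)

theorem cl_mem_unitPart (hphi : ∀ i j, IsIntegral ℤ ((A.phi i).coeff j))
    (hrho : ∀ k, IsIntegral ℤ (A.rho k)) (hg : ∀ i j, IsIntegral ℤ ((A.g.coeff i).coeff j))
    (hlam : IsIntegral ℤ lam) {n : Fin (r + 1) → Fin p → ℚ} (hn : n ∈ A.Adm)
    (v : Valuation L ℤᵐ⁰) : KQ.map 2 f (A.cl lam n) ∈ unitPart v 2 := by
  classical
  obtain ⟨hn1, hn2, hn3⟩ := hn
  set F : Polynomial (Polynomial K) →+* L := f.comp (A.toO lam) with hF
  have hci : ∀ x : K, IsIntegral ℤ x → v (cF F x) ≤ 1 := fun x hx =>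
    Pool.Agent.TH826.MK.val_le_one_of_integral v (map_isIntegral_int _ hx)
  set a : Fin (r + 1) → Lˣ := fun i => Units.map (f : A.Open lam →* L) (A.uy lam i) with ha
  set b : Fin p → Lˣ := fun k => Units.map (f : A.Open lam →* L) (A.ux lam k) with hb
  have hav : ∀ i, (a i : L) = F X - F (C (A.phi i)) := fun i => by
    rw [← map_sub]
    rfl
  have hbv : ∀ k, (b k : L) = F (C X) - cF F (A.rho k) := fun k => by
    show f (A.toO lam (A.lx k)) = F (C X) - F (C (C (A.rho k)))
    rw [← map_sub, ← map_sub]
    rfl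
  have hcl : KQ.map 2 f (A.cl lam n) = ∑ i, ∑ k, n i k • symb ![a i, b k] := by
    unfold Arr.cl
    simp only [map_sum, map_smul, KQ.map_symb]
    refine Finset.sum_congr rfl fun i _ => Finset.sum_congr rfl fun k _ => ?_
    congr 2
    funext l
    fin_cases l <;> rfl
  rw [hcl]
  by_cases hx : v (F (C X)) ≤ 1
  · by_cases hy : v (F X) ≤ 1
    · -- both coordinates are integral
      have hprod := A.prod_of_hom lam F (by
        rw [hF, RingHom.comp_apply, A.toO_eqn, map_zero])
      have hphiv : ∀ i, v (F (C (A.phi i))) ≤ 1 := fun i => by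
        rw [F_C]
        exact val_eval₂_le v _ hx fun j => hci _ (hphi i j)
      have hale : ∀ i, v (a i : L) ≤ 1 := fun i => by
        rw [hav]
        exact (v.map_sub _ _).trans (max_le hy (hphiv i))
      have hble : ∀ k, v (b k : L) ≤ 1 := fun k => by
        rw [hbv]
        exact (v.map_sub _ _).trans (max_le hx (hci _ (hrho k)))
      have hgle : v (F A.g) ≤ 1 := val_F_le F v hx hy hg
      have hlle : v (F (C (C lam))) ≤ 1 := hci _ hlam
      have haF : ∀ i, F (A.ly i) = a i := fun i => rfl
      have hbF : ∀ k, F (A.lx k) = b k := fun k => rfl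
      simp only [haF, hbF] at hprod
      have hv1 := congrArg v hprod
      rw [map_mul, map_mul, map_mul, map_prod, map_prod, map_one] at hv1
      simp only [map_pow] at hv1
      have hPa : ∏ i, v (a i : L) ^ (A.w i + 1) ≤ 1 :=
        Finset.prod_le_one' fun i _ => pow_le_one' (hale i) _
      have hPb : ∏ k, v (b k : L) ^ A.nu k ≤ 1 :=
        Finset.prod_le_one' fun k _ => pow_le_one' (hble k) _
      have hone : ∀ s t u w : ℤᵐ⁰, s ≤ 1 → t ≤ 1 → u ≤ 1 → w ≤ 1 → s * (t * (u * w)) = 1 →
          u = 1 ∧ w = 1 := by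
        intro s t u w hs ht hu hw h
        have h1 : s * (t * (u * w)) ≤ u := by
          calc s * (t * (u * w)) ≤ 1 * (1 * (u * 1)) :=
                mul_le_mul' hs (mul_le_mul' ht (mul_le_mul' le_rfl hw))
            _ = u := by rw [one_mul, one_mul, mul_one]
        have h2 : s * (t * (u * w)) ≤ w := by
          calc s * (t * (u * w)) ≤ 1 * (1 * (1 * w)) :=
                mul_le_mul' hs (mul_le_mul' ht (mul_le_mul' hu le_rfl))
            _ = w := by rw [one_mul, one_mul, one_mul]
        rw [h] at h1 h2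
        exact ⟨le_antisymm hu h1, le_antisymm hw h2⟩
      obtain ⟨hA1, hB1⟩ := hone _ _ _ _ hlle hgle hPa hPb hv1
      have ha1 : ∀ i, v (a i : L) = 1 := by
        intro i
        have h1 := (Finset.prod_eq_one_iff_of_le_one' fun i _ =>
          pow_le_one' (hale i) (A.w i + 1)).1 hA1 i (Finset.mem_univ i)
        exact (pow_eq_one_iff.1 h1).resolve_right (Nat.succ_ne_zero _)
      have hb1 : ∀ k, A.nu k ≠ 0 → v (b k : L) = 1 := by
        intro k hk
        have h1 := (Finset.prod_eq_one_iff_of_le_one' fun k _ =>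
          pow_le_one' (hble k) (A.nu k)).1 hB1 k (Finset.mem_univ k)
        exact (pow_eq_one_iff.1 h1).resolve_right hk
      rw [Finset.sum_comm]
      refine Submodule.sum_mem _ fun k _ => ?_
      by_cases hk : v (b k : L) = 1
      · refine Submodule.sum_mem _ fun i _ => Submodule.smul_mem _ _ ?_
        refine Submodule.subset_span ⟨_, fun l => ?_, rfl⟩
        fin_cases l
        · exact ha1 i
        · exact hk
      · have hlt : v (b k : L) < 1 := lt_of_le_of_ne (hble k) hk
        have hnu : A.nu k = 0 := by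
          by_contra h
          exact hk (hb1 k h)
        refine sum_mem_of_class _ (fun i => (A.phi i).eval (A.rho k)) _ _ (fun i j hij => ?_)
          (hn3 k hnu)
        rw [symb_sub_left]
        refine mem_unitPart_of_oneUnit' v 0 _ ?_
        show v (((a i / a j : Lˣ) : L) - 1) < 1
        rw [Units.val_div_eq_div_val]
        refine val_div_sub_one v (a j).ne_zero ?_
        rw [ha1 j]
        refine lt_of_le_of_lt ?_ hlt
        have hval : ∀ i, v (F (C (A.phi i)) - cF F ((A.phi i).eval (A.rho k))) ≤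
            v (b k : L) := by
          intro i
          have h2 : cF F ((A.phi i).eval (A.rho k)) =
              (A.phi i).eval₂ (cF F) (cF F (A.rho k)) := by
            rw [Polynomial.eval₂_hom]
          rw [hbv, F_C, h2]
          exact val_eval₂_sub v _ hx (hci _ (hrho k)) fun j => hci _ (hphi i j)
        have e : (a i : L) - a j = (F (C (A.phi j)) - cF F ((A.phi j).eval (A.rho k))) -
            (F (C (A.phi i)) - cF F ((A.phi i).eval (A.rho k))) := by
          have hij' : (A.phi i).eval (A.rho k) = (A.phi j).eval (A.rho k) := hij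
          rw [hav, hav, hij']
          ring
        rw [e]
        exact (v.map_sub _ _).trans (max_le (hval j) (hval i))
    · -- `y` has a pole, `x` has none
      rw [not_le] at hy
      have hphiv : ∀ i, v (F (C (A.phi i))) < v (F X) := fun i => by
        rw [F_C]
        exact (val_eval₂_le v _ hx fun j => hci _ (hphi i j)).trans_lt hy
      have haY : ∀ i, v (a i : L) = v (F X) := fun i => by
        rw [hav]
        exact Valuation.map_sub_eq_of_lt_left v (hphiv i)
      rw [Finset.sum_comm]
      refine Submodule.sum_mem _ fun k _ => ?_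
      refine sum_mem_of_class _ (fun _ => ()) _ _ (fun i j _ => ?_) (fun _ => by simpa using hn2 k)
      rw [symb_sub_left]
      refine mem_unitPart_of_oneUnit' v 0 _ ?_
      show v (((a i / a j : Lˣ) : L) - 1) < 1
      rw [Units.val_div_eq_div_val]
      refine val_div_sub_one v (a j).ne_zero ?_
      have e : (a i : L) - a j = F (C (A.phi j)) - F (C (A.phi i)) := by
        rw [hav, hav]
        ring
      rw [haY, e]
      exact (v.map_sub _ _).trans_lt (max_lt (hphiv j) (hphiv i))
  · -- `x` has a pole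
    rw [not_le] at hx
    have hrv : ∀ k, v (cF F (A.rho k)) < v (F (C X)) := fun k => (hci _ (hrho k)).trans_lt hx
    have hbX : ∀ k, v (b k : L) = v (F (C X)) := fun k => by
      rw [hbv]
      exact Valuation.map_sub_eq_of_lt_left v (hrv k)
    refine Submodule.sum_mem _ fun i _ => ?_
    refine sum_mem_of_class _ (fun _ => ()) _ _ (fun k l _ => ?_) (fun _ => by simpa using hn1 i)
    rw [symb_sub_right]
    refine mem_unitPart_of_oneUnit' v 1 _ ?_
    show v (((b k / b l : Lˣ) : L) - 1) < 1
    rw [Units.val_div_eq_div_val]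
    refine val_div_sub_one v (b l).ne_zero ?_
    have e : (b k : L) - b l = cF F (A.rho l) - cF F (A.rho k) := by
      rw [hbv, hbv]
      ring
    rw [hbX, e]
    exact (v.map_sub _ _).trans_lt (max_lt (hrv l) (hrv k))

theorem cl_mem_unramified (hphi : ∀ i j, IsIntegral ℤ ((A.phi i).coeff j))
    (hrho : ∀ k, IsIntegral ℤ (A.rho k)) (hg : ∀ i j, IsIntegral ℤ ((A.g.coeff i).coeff j))
    (hlam : IsIntegral ℤ lam) {n : Fin (r + 1) → Fin p → ℚ} (hn : n ∈ A.Adm) :
    KQ.map 2 f (A.cl lam n) ∈ Unramified L 2 := by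
  unfold Unramified
  simp only [Submodule.mem_iInf]
  intro v _
  exact cl_mem_unitPart f hphi hrho hg hlam hn v

end main

end Pool.Agent.Y797.GC
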